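import Pool.Agent.U47.EAT.Curves

/-!
# Nets for tubes around polynomial curves plus lattice curves of small variation
-/

set_option autoImplicit false

open MeasureTheory Filter Topology

namespace Pool.Agent.U47.EAT

open Pool.Agent.R239.EA

variable {d : ℕ}

/-- the union of the tubes of radius `r` around the curves `x_i = p l i (x_j) + f l i (x_j)` -/
def Tub2 (j : Fin d) (r : ℕ) {m : ℕ} (p : Fin m → Fin d → Polynomial ℝ)
    (f : Fin m → Fin d → ℤ → ℤ) : Set (Fin d → ℤ) :=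
  {x | ∃ l, ∀ i, i ≠ j → |(x i : ℝ) - ((p l i).eval (x j : ℝ) + f l i (x j))| ≤ r}

/-- the curves with bounded data -/
def Fam2 (j : Fin d) (r m R B : ℕ) (δ : ℝ) : Set (Set (Fin d → ℤ)) :=
  {S | ∃ (p : Fin m → Fin d → Polynomial ℝ) (f : Fin m → Fin d → ℤ → ℤ),
    (∀ l i, (p l i).natDegree ≤ R ∧ ∀ k, |(p l i).coeff k| ≤ B) ∧
    (∀ l i, |f l i 0| ≤ B ∧ ∀ N : ℕ,
      ((∑ n ∈ Finset.Ico (-(N : ℤ)) N, |f l i (n + 1) - f l i n| : ℤ) : ℝ) ≤ δ * N + B) ∧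
    S = Tub2 j r p f}

/-- rounding the coefficients, with error at most one -/
lemma round1 {N r : ℕ} (hN : 1 ≤ N) {P : Polynomial ℝ} (hP : P.natDegree ≤ r) {n : ℤ}
    (hn : |n| ≤ N) :
    |P.eval (n : ℝ) - ∑ k : Fin (r + 1), ((⌊P.coeff k * ((r + 1) * (N : ℝ) ^ r)⌋ : ℤ) : ℝ) /
      ((r + 1) * (N : ℝ) ^ r) * (n : ℝ) ^ (k : ℕ)| ≤ 1 := by
  obtain ⟨Q, hQ⟩ : ∃ Q : ℝ, Q = (r + 1) * (N : ℝ) ^ r := ⟨_, rfl⟩
  have hQ0 : 0 < Q := by rw [hQ]; positivity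
  rw [← hQ, Polynomial.eval_eq_sum_range' (Nat.lt_succ_of_le hP), ← Fin.sum_univ_eq_sum_range
    (fun k => P.coeff k * (n : ℝ) ^ k), ← Finset.sum_sub_distrib]
  refine (Finset.abs_sum_le_sum_abs _ _).trans ?_
  calc ∑ k : Fin (r + 1), |P.coeff k * (n : ℝ) ^ (k : ℕ) -
        ((⌊P.coeff k * Q⌋ : ℤ) : ℝ) / Q * (n : ℝ) ^ (k : ℕ)|
      ≤ ∑ _k : Fin (r + 1), (1 / (r + 1 : ℝ)) := by
        refine Finset.sum_le_sum fun k _ => ?_
        rw [← sub_mul, abs_mul, abs_pow]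
        have h1 : |P.coeff k - ((⌊P.coeff k * Q⌋ : ℤ) : ℝ) / Q| ≤ 1 / Q := by
          have h2 : P.coeff k - ((⌊P.coeff k * Q⌋ : ℤ) : ℝ) / Q =
              (P.coeff k * Q - ((⌊P.coeff k * Q⌋ : ℤ) : ℝ)) / Q := by
            field_simp
          rw [h2, abs_div, abs_of_pos hQ0]
          apply div_le_div_of_nonneg_right _ hQ0.le
          have h3 := Int.floor_le (P.coeff k * Q)
          have h4 := Int.lt_floor_add_one (P.coeff k * Q)
          rw [abs_le]; constructor <;> linarith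
        have h5 : |(n : ℝ)| ^ (k : ℕ) ≤ (N : ℝ) ^ r := by
          have h6 : |(n : ℝ)| ≤ N := by exact_mod_cast hn
          calc |(n : ℝ)| ^ (k : ℕ) ≤ (N : ℝ) ^ (k : ℕ) := pow_le_pow_left₀ (abs_nonneg _) h6 _
            _ ≤ (N : ℝ) ^ r := pow_le_pow_right₀ (by exact_mod_cast hN) (by omega)
        calc |P.coeff k - ((⌊P.coeff k * Q⌋ : ℤ) : ℝ) / Q| *
              |(n : ℝ)| ^ (k : ℕ) ≤ 1 / Q * (N : ℝ) ^ r :=
              mul_le_mul h1 h5 (by positivity) (by positivity)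
          _ = 1 / (r + 1) := by rw [hQ]; field_simp
    _ = 1 := by
        rw [Finset.sum_const, Finset.card_univ, Fintype.card_fin, nsmul_eq_mul]
        push_cast; field_simp

/-- the start of a curve of small variation -/
lemma start (N : ℕ) (f : ℤ → ℤ) :
    |f (-(N : ℤ))| ≤ |f 0| + ∑ n ∈ Finset.Ico (-(N : ℤ)) N, |f (n + 1) - f n| := by
  obtain ⟨F, hF⟩ : ∃ F : ℕ → ℤ, F = fun k : ℕ => f (-(N : ℤ) + (k : ℤ)) := ⟨_, rfl⟩
  have hs : ∑ n ∈ Finset.Ico (-(N : ℤ)) N, |f (n + 1) - f n| =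
      ∑ k ∈ Finset.range (2 * N), |F (k + 1) - F k| := by
    rw [Int.Ico_eq_finset_map, Finset.sum_map]
    have h1 : ((N : ℤ) - -(N : ℤ)).toNat = 2 * N := by omega
    rw [h1]
    refine Finset.sum_congr rfl fun k _ => ?_
    rw [hF]
    simp only [Function.Embedding.trans_apply, Nat.castEmbedding_apply, addLeftEmbedding_apply]
    push_cast
    rw [add_assoc]
  have h2 : |F N - F 0| ≤ ∑ k ∈ Finset.range (2 * N), |F (k + 1) - F k| := by
    rw [← Finset.sum_range_sub]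
    refine (Finset.abs_sum_le_sum_abs _ _).trans ?_
    exact Finset.sum_le_sum_of_subset_of_nonneg (Finset.range_mono (by omega))
      fun _ _ _ => abs_nonneg _
  rw [hs]
  have h3 : F N = f 0 := by rw [hF]; simp
  have h4 : F 0 = f (-(N : ℤ)) := by rw [hF]; simp
  rw [h3, h4] at h2
  have h5 : |f (-(N : ℤ))| ≤ |f 0| + |f 0 - f (-(N : ℤ))| := by
    have h6 := abs_sub_abs_le_abs_sub (f (-(N : ℤ))) (f 0)
    rw [abs_sub_comm] at h6
    linarith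
  linarith

lemma var_size (e : ℕ) {ε : ℝ} (hε : 0 < ε) : ∃ δ : ℝ, 0 < δ ∧ ∀ B : ℕ, ∀ᶠ N : ℕ in atTop,
    ((crv N ⌊δ * N + B⌋₊ (B + ⌊δ * N + B⌋₊)).card : ℝ) ^ e ≤ Real.exp (ε * N) := by
  obtain ⟨ε1, hε1⟩ : ∃ ε1 : ℝ, ε1 = ε / (e + 1) := ⟨_, rfl⟩
  have h10 : 0 < ε1 := by rw [hε1]; positivity
  obtain ⟨t, ht⟩ : ∃ t : ℝ, t = Real.log (32 / ε1 + 2) := ⟨_, rfl⟩
  have h11 : (0:ℝ) < 32 / ε1 := by positivity
  have hexp : Real.exp (-t) = 1 / (32 / ε1 + 2) := by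
    rw [ht, Real.exp_neg, Real.exp_log (by positivity), one_div]
  have hexp1 : Real.exp (-t) ≤ 1 / 2 := by
    rw [hexp]
    apply one_div_le_one_div_of_le <;> linarith
  have hexp2 : 8 * Real.exp (-t) ≤ ε1 / 4 := by
    rw [hexp]
    have h12 : 1 / (32 / ε1 + 2) ≤ 1 / (32 / ε1) :=
      one_div_le_one_div_of_le h11 (by linarith)
    have h13 : 1 / (32 / ε1) = ε1 / 32 := by field_simp
    linarith
  have ht0 : 0 ≤ t := by rw [ht]; exact Real.log_nonneg (by linarith)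
  refine ⟨ε1 / (8 * (t + 1)), by positivity, fun B => ?_⟩
  obtain ⟨δ, hδ⟩ : ∃ δ : ℝ, δ = ε1 / (8 * (t + 1)) := ⟨_, rfl⟩
  rw [← hδ]
  have hδ0 : 0 < δ := by rw [hδ]; positivity
  have htδ : t * δ ≤ ε1 / 8 := by
    rw [hδ, mul_div_assoc', div_le_div_iff₀ (by positivity) (by norm_num)]
    nlinarith
  have e1 : ∀ᶠ N : ℕ in atTop, (4 * B + 1 + 2 * δ) * 32 / ε1 ^ 2 ≤ (N : ℝ) :=
    tendsto_natCast_atTop_atTop.eventually_ge_atTop _
  have e2 : ∀ᶠ N : ℕ in atTop, 8 * (t * B) / ε1 ≤ (N : ℝ) :=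
    tendsto_natCast_atTop_atTop.eventually_ge_atTop _
  filter_upwards [e1, e2, eventually_ge_atTop 1] with N h1 h2 h3
  obtain ⟨V, hV⟩ : ∃ V : ℕ, V = ⌊δ * N + B⌋₊ := ⟨_, rfl⟩
  rw [← hV]
  have hN1 : (1:ℝ) ≤ N := by exact_mod_cast h3
  have hB0 : (0:ℝ) ≤ B := Nat.cast_nonneg B
  have hVle : (V : ℝ) ≤ δ * N + B := by
    rw [hV]; exact Nat.floor_le (by positivity)
  have h4 : t * V ≤ ε1 / 8 * N + ε1 / 8 * N := by
    have h5 : t * V ≤ t * (δ * N + B) := mul_le_mul_of_nonneg_left hVle ht0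
    have h6 : t * δ * N ≤ ε1 / 8 * N := mul_le_mul_of_nonneg_right htδ (by linarith)
    rw [div_le_iff₀ h10] at h2
    nlinarith
  have h5 : 8 * Real.exp (-t) * N ≤ ε1 / 4 * N :=
    mul_le_mul_of_nonneg_right hexp2 (by linarith)
  have h6 : (2 * ((B + V : ℕ) : ℝ) + 1) ≤ Real.exp (ε1 / 4 * N) := by
    have h7 := Real.quadratic_le_exp_of_nonneg (show 0 ≤ ε1 / 4 * (N : ℝ) by positivity)
    rw [div_le_iff₀ (by positivity)] at h1
    have h8 : (4 * B + 1 + 2 * δ) * N * 32 ≤ N * ε1 ^ 2 * N := by nlinarith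
    have h9 : 4 * (B : ℝ) + 1 + 2 * δ * N ≤ (4 * B + 1 + 2 * δ) * N := by nlinarith
    have h12 : 0 ≤ ε1 / 4 * (N : ℝ) := by positivity
    push_cast
    nlinarith
  have h7 := card_crv N V (B + V) hexp1
  have h8 : ((crv N V (B + V)).card : ℝ) ≤ Real.exp (ε1 * N) := by
    refine h7.trans ?_
    calc (2 * ((B + V : ℕ) : ℝ) + 1) * Real.exp (t * V + 8 * Real.exp (-t) * N)
        ≤ Real.exp (ε1 / 4 * N) * Real.exp (ε1 / 8 * N + ε1 / 8 * N + ε1 / 4 * N) := by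
          refine mul_le_mul h6 (Real.exp_le_exp.2 (by linarith)) (Real.exp_pos _).le
            (Real.exp_pos _).le
      _ = Real.exp (3 / 4 * (ε1 * N)) := by rw [← Real.exp_add]; congr 1; ring
      _ ≤ Real.exp (ε1 * N) := by
          apply Real.exp_le_exp.2
          have : 0 ≤ ε1 * (N : ℝ) := by positivity
          linarith
  calc ((crv N V (B + V)).card : ℝ) ^ e ≤ (Real.exp (ε1 * N)) ^ e :=
        pow_le_pow_left₀ (Nat.cast_nonneg _) h8 e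
    _ = Real.exp (e * (ε1 * N)) := by rw [← Real.exp_nat_mul]
    _ ≤ Real.exp (ε * N) := by
        apply Real.exp_le_exp.2
        have h9 : (e : ℝ) * ε1 ≤ ε := by
          rw [hε1, mul_div_assoc', div_le_iff₀ (by positivity)]
          nlinarith
        nlinarith

/-- **Nets.** -/
theorem net2 (j : Fin d) (r m : ℕ) {ε : ℝ} (hε : 0 < ε) : ∃ δ : ℝ, 0 < δ ∧ ∀ R B : ℕ,
    ∀ᶠ N : ℕ in atTop, ∃ 𝓖, Net j (m * (2 * (r + 1) + 1) ^ (d - 1))
      (Real.exp (ε * N)) (Fam2 j r m R B δ) N 𝓖 := by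
  classical
  obtain ⟨δ, hδ0, hδ⟩ := var_size (m * d) (half_pos hε)
  refine ⟨δ, hδ0, fun R B => ?_⟩
  have h3 : ∀ᶠ N : ℕ in atTop, √(N : ℝ) ≤ ε / 2 * N := by
    have h4 : ∀ᶠ N : ℕ in atTop, (1 / (ε / 2)) ^ 2 ≤ (N : ℝ) :=
      tendsto_natCast_atTop_atTop.eventually_ge_atTop _
    filter_upwards [h4] with N h5
    have h6 : 1 / (ε / 2) ≤ √(N : ℝ) := Real.le_sqrt_of_sq_le h5
    have h7 : √(N : ℝ) * √(N : ℝ) = N := Real.mul_self_sqrt (Nat.cast_nonneg N)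
    rw [div_le_iff₀ (half_pos hε)] at h6
    have h8 : 0 ≤ √(N : ℝ) := Real.sqrt_nonneg _
    nlinarith
  filter_upwards [size (B * (R + 1)) R (m * d * (R + 1)), hδ B, h3, eventually_ge_atTop 1]
    with N hsize hcrv hsq hN1
  obtain ⟨V, hV⟩ : ∃ V : ℕ, V = ⌊δ * N + B⌋₊ := ⟨_, rfl⟩
  rw [← hV] at hcrv
  obtain ⟨F, hF⟩ : ∃ F : (Fin m → Fin d → Fin (R + 1) → ℤ) → Fin m → ℤ → Fin d → ℝ,
      F = fun (z : Fin m → Fin d → Fin (R + 1) → ℤ) (l : Fin m) (n : ℤ) (i : Fin d) =>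
        ∑ k : Fin (R + 1), ((z l i k : ℤ) : ℝ) / ((R + 1) * (N : ℝ) ^ R) *
        (n : ℝ) ^ (k : ℕ) := ⟨_, rfl⟩
  obtain ⟨G, hG⟩ : ∃ G : (Fin m → Fin d → Fin (R + 1) → ℤ) × (Fin m → Fin d → ℤ → ℤ) →
      Set (Fin d → ℤ),
      G = fun z => {x : Fin d → ℤ | ∃ l, ∀ i, i ≠ j →
        |(x i : ℝ) - (F z.1 l (x j) i + z.2 l i (x j))| ≤ ((r + 1 : ℕ) : ℝ)} := ⟨_, rfl⟩
  obtain ⟨Z, hZ⟩ : ∃ Z : Finset (Fin m → Fin d → Fin (R + 1) → ℤ),
      Z = Fintype.piFinset fun _ => Fintype.piFinset fun _ => Fintype.piFinset fun _ =>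
        Finset.Icc (-((B * (R + 1) * N ^ R + 1 : ℕ) : ℤ)) ((B * (R + 1) * N ^ R + 1 : ℕ) : ℤ) :=
    ⟨_, rfl⟩
  obtain ⟨Y, hY⟩ : ∃ Y : Finset (Fin m → Fin d → ℤ → ℤ),
      Y = Fintype.piFinset fun _ => Fintype.piFinset fun _ => crv N V (B + V) := ⟨_, rfl⟩
  have hZc : Z.card = (2 * (B * (R + 1) * N ^ R + 1) + 1) ^ (m * d * (R + 1)) := by
    rw [hZ]
    simp only [Fintype.card_piFinset, Int.card_Icc, Finset.prod_const, Finset.card_univ,
      Fintype.card_fin]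
    rw [← pow_mul, ← pow_mul]
    congr 1
    · omega
    · ring
  have hYc : Y.card = (crv N V (B + V)).card ^ (m * d) := by
    rw [hY]
    simp only [Fintype.card_piFinset, Finset.prod_const, Finset.card_univ, Fintype.card_fin]
    rw [← pow_mul]
    congr 1
    ring
  refine ⟨(Z ×ˢ Y).image G, ?_, ?_, ?_⟩
  · have h1 : ((Z ×ˢ Y).image G).card ≤ (2 * (B * (R + 1) * N ^ R + 1) + 1) ^ (m * d * (R + 1)) *
        (crv N V (B + V)).card ^ (m * d) := by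
      rw [← hZc, ← hYc, ← Finset.card_product]; exact Finset.card_image_le
    calc (((Z ×ˢ Y).image G).card : ℝ)
        ≤ (((2 * (B * (R + 1) * N ^ R + 1) + 1) ^ (m * d * (R + 1)) : ℕ) : ℝ) *
          ((crv N V (B + V)).card : ℝ) ^ (m * d) := by exact_mod_cast h1
      _ ≤ Real.exp (√(N : ℝ)) * Real.exp (ε / 2 * N) :=
          mul_le_mul hsize hcrv (by positivity) (Real.exp_pos _).le
      _ ≤ Real.exp (ε * N) := by
          rw [← Real.exp_add]; apply Real.exp_le_exp.2; linarith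
  · intro S hS n _
    obtain ⟨z, -, rfl⟩ := Finset.mem_image.1 hS
    rw [hG]
    exact few j (r + 1) m (fun l n i => F z.1 l n i + z.2 l i n) n
  · rintro S ⟨p, f, hp, hf, rfl⟩
    have hex : ∀ l i, ∃ φ ∈ crv N V (B + V), ∀ n : ℤ, |n| ≤ N → φ n = f l i n := by
      intro l i
      have h1 : ((∑ n ∈ Finset.Ico (-(N : ℤ)) N, |f l i (n + 1) - f l i n|) : ℤ) ≤ V := by
        have h2 := (hf l i).2 N
        have h4 : ∃ s : ℕ, (∑ n ∈ Finset.Ico (-(N : ℤ)) N, |f l i (n + 1) - f l i n| : ℤ) = s :=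
          Int.eq_ofNat_of_zero_le (Finset.sum_nonneg fun _ _ => abs_nonneg _)
        obtain ⟨s, hs⟩ := h4
        rw [hs] at h2 ⊢
        have h5 : s ≤ V := by
          rw [hV]
          exact Nat.le_floor (by exact_mod_cast h2)
        exact_mod_cast h5
      refine mem_crv ?_ h1
      have h2 := start N (f l i)
      have h4 := (hf l i).1
      push_cast
      linarith
    choose φ hφ1 hφ2 using hex
    refine ⟨G (fun l i k => ⌊(p l i).coeff k * ((R + 1) * (N : ℝ) ^ R)⌋, φ),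
      Finset.mem_image_of_mem _ (Finset.mem_product.2 ⟨?_, ?_⟩), ?_⟩
    · rw [hZ]
      simp only [Fintype.mem_piFinset, Finset.mem_Icc]
      intro l i k
      have h1 := abs_le.1 ((hp l i).2 k)
      have hN0 : (0:ℝ) ≤ (R + 1) * (N : ℝ) ^ R := by positivity
      constructor
      · rw [Int.le_floor]
        push_cast
        nlinarith
      · have h2 : (⌊(p l i).coeff k * ((R + 1) * (N : ℝ) ^ R)⌋ : ℝ) ≤
            (B : ℝ) * (R + 1) * N ^ R + 1 := by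
          have h3 := Int.floor_le ((p l i).coeff k * ((R + 1) * (N : ℝ) ^ R))
          nlinarith
        exact_mod_cast h2
    · rw [hY]
      simp only [Fintype.mem_piFinset]
      exact fun l i => hφ1 l i
    · rintro x ⟨l, hl⟩ hx
      rw [hG]
      refine ⟨l, fun i hi => ?_⟩
      have h1 := hl i hi
      have h2 := round1 hN1 (hp l i).1 hx
      simp only
      rw [hφ2 l i (x j) hx, hF]
      simp only
      push_cast
      calc |(x i : ℝ) - (∑ k : Fin (R + 1), ((⌊(p l i).coeff k * ((R + 1) * (N : ℝ) ^ R)⌋ : ℤ) : ℝ) /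
            ((R + 1) * (N : ℝ) ^ R) * ((x j : ℤ) : ℝ) ^ (k : ℕ) + (f l i (x j) : ℝ))|
          = |((x i : ℝ) - ((p l i).eval (x j : ℝ) + f l i (x j))) + ((p l i).eval (x j : ℝ) -
            ∑ k : Fin (R + 1), ((⌊(p l i).coeff k * ((R + 1) * (N : ℝ) ^ R)⌋ : ℤ) : ℝ) /
            ((R + 1) * (N : ℝ) ^ R) * ((x j : ℤ) : ℝ) ^ (k : ℕ))| := by congr 1; ring
        _ ≤ r + 1 := (abs_add_le _ _).trans (add_le_add h1 h2)

lemma mem_Fam2 (j : Fin d) (r : ℕ) {m : ℕ} (p : Fin m → Fin d → Polynomial ℝ)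
    (f : Fin m → Fin d → ℤ → ℤ) {δ : ℝ}
    (hf : ∃ B : ℝ, ∀ l i, ∀ N : ℕ,
      ((∑ n ∈ Finset.Ico (-(N : ℤ)) N, |f l i (n + 1) - f l i n| : ℤ) : ℝ) ≤ δ * N + B) :
    ∃ R B, Tub2 j r p f ∈ Fam2 j r m R B δ := by
  classical
  obtain ⟨B1, hB1⟩ := hf
  obtain ⟨R, hR⟩ : ∃ R : ℕ, R = Finset.univ.sup fun li : Fin m × Fin d =>
      (p li.1 li.2).natDegree := ⟨_, rfl⟩
  obtain ⟨B, hB⟩ : ∃ B : ℕ, B = Finset.univ.sup fun lik : Fin m × Fin d × Fin (R + 1) =>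
      ⌈|(p lik.1 lik.2.1).coeff lik.2.2|⌉₊ := ⟨_, rfl⟩
  obtain ⟨B3, hB3⟩ : ∃ B3 : ℕ, B3 = Finset.univ.sup fun li : Fin m × Fin d =>
      (f li.1 li.2 0).natAbs := ⟨_, rfl⟩
  refine ⟨R, max B (max B3 ⌈B1⌉₊), p, f, fun l i => ?_, fun l i => ⟨?_, fun N => ?_⟩, rfl⟩
  · have h1 : (p l i).natDegree ≤ R := by
      rw [hR]
      exact Finset.le_sup (f := fun li : Fin m × Fin d => (p li.1 li.2).natDegree)
        (Finset.mem_univ (l, i))
    refine ⟨h1, fun k => ?_⟩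
    rcases Nat.lt_or_ge R k with h | h
    · rw [Polynomial.coeff_eq_zero_of_natDegree_lt (by omega), abs_zero]
      exact Nat.cast_nonneg _
    · have h2 : ⌈|(p l i).coeff k|⌉₊ ≤ B := by
        rw [hB]
        exact Finset.le_sup (f := fun lik : Fin m × Fin d × Fin (R + 1) =>
          ⌈|(p lik.1 lik.2.1).coeff lik.2.2|⌉₊) (Finset.mem_univ (l, i, ⟨k, by omega⟩))
      exact (Nat.le_ceil _).trans (by exact_mod_cast h2.trans (le_max_left _ _))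
  · have h2 : (f l i 0).natAbs ≤ B3 := by
      rw [hB3]
      exact Finset.le_sup (f := fun li : Fin m × Fin d => (f li.1 li.2 0).natAbs)
        (Finset.mem_univ (l, i))
    have h3 : (f l i 0).natAbs ≤ max B (max B3 ⌈B1⌉₊) :=
      h2.trans ((le_max_left _ _).trans (le_max_right _ _))
    rw [Int.abs_eq_natAbs]
    exact_mod_cast h3
  · refine (hB1 l i N).trans (add_le_add le_rfl ((Nat.le_ceil B1).trans ?_))
    exact_mod_cast (le_max_right B3 ⌈B1⌉₊).trans (le_max_right _ _)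

end Pool.Agent.U47.EAT
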