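import Pool.Agent.U47.EAT.WProb

/-!
# Rigid slices
-/

set_option autoImplicit false

open MeasureTheory Filter Topology

namespace Pool.Agent.U47.EAT

open Pool.Agent.R239.EA

variable {d : ℕ}

variable (μ : Measure ℝ) [IsProbabilityMeasure μ]

/-- **Rigid slices.** -/
theorem rigG {i j : Fin d} (hij : i ≠ j) (M M' : ℕ → ℕ) (hM' : ∀ N, 2 * M N ≤ M' N)
    (a b k : ℕ → ℝ) (ha0 : ∀ N, 0 ≤ a N)
    (hab : ∀ N, 2 * d * M' N * a N < b N) (hk0 : ∀ N, 0 < k N)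
    (hk : ∀ N, ENNReal.ofReal (k N) ≤
      (min (μ {x | |x| ≤ a N}) (μ {x | b N ≤ |x|})) ^ (2 * d * M' N))
    (𝓕 : Set (Set (Fin d → ℤ)))
    (hF : ∃ᶠ N : ℕ in atTop, 16 * Real.log N ≤ k N * N ∧
      ∃ 𝓖, Net j (M N) (Real.exp (k N * N / 8)) 𝓕 N 𝓖) :
    ∀ᵐ J ∂(Lw μ d), ∀ S ∈ 𝓕, ∃ (N : ℕ) (n : ℤ) (C : Finset (Fin d → ℤ)),
      Rig (a N) (b N) i C J ∧ C.card ≤ M' N ∧
        ∀ x, x j = n → (x ∈ S ∨ x + u i ∈ S) → x ∈ C := by
  classical
  have hq1 : ∀ N, min (μ {x | |x| ≤ a N}) (μ {x | b N ≤ |x|}) ≤ 1 :=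
    fun N => (min_le_left _ _).trans prob_le_one
  have hk1 : ∀ N, k N ≤ 1 := by
    intro N
    have h1 : ENNReal.ofReal (k N) ≤ 1 := (hk N).trans (pow_le_one' (hq1 N) _)
    rwa [ENNReal.ofReal_le_one] at h1
  obtain ⟨P, hP⟩ : ∃ P : ℕ → Prop, P = fun N : ℕ => 16 * Real.log N ≤ k N * N ∧
    ∃ 𝓖, Net j (M N) (Real.exp (k N * N / 8)) 𝓕 N 𝓖 := ⟨_, rfl⟩
  have hch : ∃ 𝓖 : ℕ → Finset (Set (Fin d → ℤ)), ∀ N, P N →
      Net j (M N) (Real.exp (k N * N / 8)) 𝓕 N (𝓖 N) := by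
    refine ⟨fun N => if h : ∃ 𝓖, Net j (M N) (Real.exp (k N * N / 8)) 𝓕 N 𝓖 then h.choose
      else ∅, fun N hN => ?_⟩
    rw [hP] at hN
    simp only
    rw [dif_pos hN.2]
    exact hN.2.choose_spec
  obtain ⟨𝓖, h𝓖⟩ := hch
  -- the bad events
  obtain ⟨I, hI⟩ : ∃ I : ℕ → Finset ℕ, I = fun N => Finset.Ioc (N / 4) (N / 2) := ⟨_, rfl⟩
  obtain ⟨E, hE⟩ : ∃ E : ℤ → Set (Fin d → ℤ) → ℕ → Set ((Fin d → ℤ) × Fin d → ℝ),
      E = fun s G N => {J | ∀ m ∈ I N, ¬ Rig (a N) (b N) i (slw G i j (s * (2 * m))) J} := ⟨_, rfl⟩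
  obtain ⟨B, hB⟩ : ∃ B : ℕ → Set ((Fin d → ℤ) × Fin d → ℝ),
      B = fun N => {J | P N ∧ ∃ G ∈ 𝓖 N, J ∈ E 1 G N ∨ J ∈ E (-1) G N} := ⟨_, rfl⟩
  have hEp : ∀ N, P N → ∀ G ∈ 𝓖 N, ∀ s : ℤ, |s| = 1 →
      Lw μ d (E s G N) ≤ ENNReal.ofReal (Real.exp (-(k N * ((N / 4 : ℕ) : ℝ)))) := by
    intro N hN G hG s hs
    obtain ⟨-, h2, -⟩ := h𝓖 N hN
    have hcardI : N / 4 ≤ (I N).card := by
      rw [hI]; simp only [Nat.card_Ioc]; omega
    have h3 : Lw μ d (E s G N) ≤ (1 - ENNReal.ofReal (k N)) ^ (I N).card := by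
      rw [hE]
      refine none_prob μ (fun m => slw G i j (s * (2 * (m : ℤ)))) (I N) ?_ ?_
      · intro m hm m' hm' hne
        refine tch_disj (slw_height hij) (slw_height hij) ?_
        have h4 : s * (2 * (m : ℤ)) - s * (2 * (m' : ℤ)) = s * (2 * ((m : ℤ) - m')) := by ring
        rw [h4, abs_mul, hs, one_mul, abs_mul]
        have h5 : 1 ≤ |(m : ℤ) - m'| := by
          apply Int.one_le_abs
          intro h6
          apply hne
          omega
        simp only [abs_two]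
        omega
      · intro m hm
        refine (hk N).trans (Rig_prob μ (hq1 N) (min_le_left _ _) (min_le_right _ _)
          ((slw_card (h2 G hG _ ?_)).trans (hM' N)))
        rw [abs_mul, hs, one_mul]
        rw [hI, Finset.mem_Ioc] at hm
        rw [abs_of_nonneg (by positivity)]
        have := hm.2
        omega
    refine h3.trans ((one_sub_pow_le ENNReal.ofReal_ne_top _).trans (ENNReal.ofReal_le_ofReal ?_))
    rw [ENNReal.toReal_ofReal (hk0 N).le]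
    apply Real.exp_le_exp.2
    have h6 : ((N / 4 : ℕ) : ℝ) ≤ ((I N).card : ℝ) := by exact_mod_cast hcardI
    have h7 := mul_le_mul_of_nonneg_left h6 (hk0 N).le
    linarith
  have hBp : ∀ N, Lw μ d (B N) ≤ ENNReal.ofReal (2 * Real.exp 1 * (1 / (N : ℝ) ^ 2)) ∨ N = 0 := by
    intro N
    rcases Nat.eq_zero_or_pos N with h0N | h0N
    · exact Or.inr h0N
    left
    have hN0 : (0:ℝ) < N := by exact_mod_cast h0N
    by_cases hN : P N
    · obtain ⟨h1, -, -⟩ := h𝓖 N hN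
      have hlog : 16 * Real.log N ≤ k N * N := by rw [hP] at hN; exact hN.1
      have hsub : B N ⊆ ⋃ G ∈ 𝓖 N, (E 1 G N ∪ E (-1) G N) := by
        intro J hJ
        rw [hB] at hJ
        obtain ⟨-, G, hG, h⟩ := hJ
        simp only [Set.mem_iUnion]
        exact ⟨G, hG, h⟩
      calc Lw μ d (B N) ≤ Lw μ d (⋃ G ∈ 𝓖 N, (E 1 G N ∪ E (-1) G N)) := measure_mono hsub
        _ ≤ ∑ G ∈ 𝓖 N, Lw μ d (E 1 G N ∪ E (-1) G N) := measure_biUnion_finset_le _ _
        _ ≤ ∑ G ∈ 𝓖 N, ENNReal.ofReal (2 * Real.exp (-(k N * ((N / 4 : ℕ) : ℝ)))) := by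
            refine Finset.sum_le_sum fun G hG => ?_
            refine (measure_union_le _ _).trans ?_
            refine (add_le_add (hEp N hN G hG 1 (by simp)) (hEp N hN G hG (-1) (by simp))).trans ?_
            rw [← ENNReal.ofReal_add (Real.exp_pos _).le (Real.exp_pos _).le, two_mul]
        _ = ENNReal.ofReal ((𝓖 N).card * (2 * Real.exp (-(k N * ((N / 4 : ℕ) : ℝ))))) := by
            rw [Finset.sum_const, nsmul_eq_mul, ENNReal.ofReal_mul (Nat.cast_nonneg _),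
              ENNReal.ofReal_natCast]
        _ ≤ ENNReal.ofReal (2 * Real.exp 1 * (1 / (N : ℝ) ^ 2)) := by
            apply ENNReal.ofReal_le_ofReal
            have h4 : ((N / 4 : ℕ) : ℝ) ≥ N / 4 - 1 := by
              have h5 : N ≤ 4 * (N / 4) + 3 := by omega
              have h6 : (N : ℝ) ≤ 4 * ((N / 4 : ℕ) : ℝ) + 3 := by exact_mod_cast h5
              linarith
            have h7 : Real.exp (-(k N * ((N / 4 : ℕ) : ℝ))) ≤ Real.exp (1 - k N * N / 4) := by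
              apply Real.exp_le_exp.2
              have h8 := mul_le_mul_of_nonneg_left h4 (hk0 N).le
              have := hk1 N
              nlinarith
            have h9 : Real.exp (-(k N * N / 8)) ≤ 1 / (N : ℝ) ^ 2 := by
              have h10 : Real.exp (-(k N * N / 8)) ≤ Real.exp (-(2 * Real.log N)) := by
                apply Real.exp_le_exp.2; linarith
              refine h10.trans (le_of_eq ?_)
              rw [Real.exp_neg, one_div, show 2 * Real.log N = Real.log N * (2:ℕ) by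
                push_cast; ring, mul_comm, Real.exp_nat_mul, Real.exp_log hN0]
            calc ((𝓖 N).card : ℝ) * (2 * Real.exp (-(k N * ((N / 4 : ℕ) : ℝ))))
                ≤ Real.exp (k N * N / 8) * (2 * Real.exp (1 - k N * N / 4)) := by
                  gcongr
              _ = 2 * Real.exp 1 * Real.exp (-(k N * N / 8)) := by
                  rw [mul_left_comm, ← Real.exp_add, mul_assoc, ← Real.exp_add]
                  congr 2; ring
              _ ≤ 2 * Real.exp 1 * (1 / (N : ℝ) ^ 2) := by gcongr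
    · have h0 : B N = ∅ := by
        rw [hB]
        ext J
        simp only [Set.mem_ofPred_eq, Set.mem_empty_iff_false, iff_false]
        exact fun h => hN h.1
      rw [h0, measure_empty]
      exact zero_le
  have hsum : ∑' N, Lw μ d (B (N + 1)) ≠ ⊤ := by
    have hs : Summable fun N : ℕ => 2 * Real.exp 1 * (1 / ((N + 1 : ℕ) : ℝ) ^ 2) := by
      refine Summable.mul_left _ ?_
      exact (summable_nat_add_iff 1).2 (Real.summable_one_div_nat_pow.2 (by norm_num))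
    refine ne_top_of_le_ne_top hs.tsum_ofReal_ne_top (ENNReal.tsum_le_tsum fun N => ?_)
    rcases hBp (N + 1) with h | h
    · exact h
    · omega
  filter_upwards [ae_eventually_notMem hsum] with J hJ'
  have hJ : ∀ᶠ N in atTop, J ∉ B N := by
    obtain ⟨n0, hn0⟩ := eventually_atTop.1 hJ'
    refine eventually_atTop.2 ⟨n0 + 1, fun N hN => ?_⟩
    have := hn0 (N - 1) (by omega)
    rwa [Nat.sub_add_cancel (by omega)] at this
  intro S hS
  obtain ⟨N, hPN, hJN⟩ : ∃ N, P N ∧ J ∉ B N := by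
    have h1 : ∃ᶠ N : ℕ in atTop, P N := by rw [hP]; exact hF
    obtain ⟨N, h2, h3⟩ := (h1.and_eventually hJ).exists
    exact ⟨N, h2, h3⟩
  obtain ⟨-, hfin, hcov⟩ := h𝓖 N hPN
  obtain ⟨G, hG, hSG⟩ := hcov S hS
  have hJE : J ∉ E 1 G N := by
    intro h
    apply hJN
    rw [hB]
    exact ⟨hPN, G, hG, Or.inl h⟩
  rw [hE] at hJE
  simp only [Set.mem_ofPred_eq] at hJE
  push Not at hJE
  obtain ⟨m, hm, hR⟩ := hJE
  have hm' := hm
  rw [hI, Finset.mem_Ioc] at hm'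
  have hmN : |(1 : ℤ) * (2 * (m : ℤ))| ≤ N := by
    rw [one_mul, abs_of_nonneg (by positivity)]
    have := hm'.2
    omega
  refine ⟨N, 1 * (2 * m), slw G i j (1 * (2 * m)), hR,
    (slw_card (hfin G hG _ hmN)).trans (hM' N), fun x hx h => ?_⟩
  unfold slw
  rw [Finset.mem_union, Finset.mem_image]
  rcases h with h | h
  · left
    rw [mem_slc (hfin G hG _ hmN)]
    exact ⟨hSG _ h (by rw [hx]; exact hmN), hx⟩
  · right
    have hxi : (x + u i) j = x j := by rw [Pi.add_apply, u_ne hij.symm, add_zero]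
    refine ⟨x + u i, ?_, by simp⟩
    rw [mem_slc (hfin G hG _ hmN)]
    exact ⟨hSG _ h (by rw [hxi, hx]; exact hmN), by rw [hxi, hx]⟩

/-- **Rigid slices, fixed strengths.** -/
theorem rigS {a b : ℝ} (ha0 : 0 ≤ a) {i j : Fin d} (hij : i ≠ j) {M : ℕ}
    (hab : 2 * d * (2 * M : ℕ) * a < b) (ha : μ {x | |x| ≤ a} ≠ 0) (hb : μ {x | b ≤ |x|} ≠ 0) :
    ∃ ε : ℝ, 0 < ε ∧ ∀ 𝓕 : Set (Set (Fin d → ℤ)),
      (∃ᶠ N : ℕ in atTop, ∃ 𝓖, Net j M (Real.exp (ε * N)) 𝓕 N 𝓖) →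
      ∀ᵐ J ∂(Lw μ d), ∀ S ∈ 𝓕, ∃ (n : ℤ) (C : Finset (Fin d → ℤ)),
        Rig a b i C J ∧ C.card ≤ 2 * M ∧ ∀ x, x j = n → (x ∈ S ∨ x + u i ∈ S) → x ∈ C := by
  obtain ⟨q, hq⟩ : ∃ q : ENNReal, q = min (μ {x | |x| ≤ a}) (μ {x | b ≤ |x|}) := ⟨_, rfl⟩
  have hq1 : q ≤ 1 := by rw [hq]; exact (min_le_left _ _).trans prob_le_one
  have hq0 : q ≠ 0 := by
    rw [hq]
    intro h
    rcases min_eq_bot.1 h with h | h
    · exact ha h
    · exact hb h
  obtain ⟨κ, hκ⟩ : ∃ κ : ENNReal, κ = q ^ (2 * d * (2 * M)) := ⟨_, rfl⟩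
  have hκ0 : κ ≠ 0 := by rw [hκ]; exact pow_ne_zero _ hq0
  have hκt : κ ≠ ⊤ := by
    rw [hκ]; exact (lt_of_le_of_lt (pow_le_one' hq1 _) ENNReal.one_lt_top).ne
  obtain ⟨k, hk⟩ : ∃ k : ℝ, k = κ.toReal := ⟨_, rfl⟩
  have hk0 : 0 < k := by rw [hk]; exact ENNReal.toReal_pos hκ0 hκt
  refine ⟨k / 8, by positivity, fun 𝓕 hF => ?_⟩
  have hmain := rigG μ hij (fun _ => M) (fun _ => 2 * M) (fun _ => le_rfl) (fun _ => a) (fun _ => b) (fun _ => k) (fun _ => ha0)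
    (fun _ => hab) (fun _ => hk0)
    (fun _ => by rw [hk, ENNReal.ofReal_toReal hκt, hκ, hq]) 𝓕 ?_
  · filter_upwards [hmain] with J hJ S hS
    obtain ⟨-, n, C, h⟩ := hJ S hS
    exact ⟨n, C, h⟩
  · have h1 : ∀ᶠ N : ℕ in atTop, 16 * Real.log N ≤ k * N := by
      have h2 := (Real.isLittleO_log_id_atTop.bound (show (0:ℝ) < k / 16 by positivity))
      have h3 := tendsto_natCast_atTop_atTop (R := ℝ) |>.eventually h2
      filter_upwards [h3, eventually_ge_atTop 1] with N h4 h5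
      have h6 : (0:ℝ) ≤ Real.log N := Real.log_natCast_nonneg N
      simp only [id, Real.norm_eq_abs] at h4
      rw [abs_of_nonneg h6, abs_of_nonneg (Nat.cast_nonneg N)] at h4
      linarith
    refine (hF.and_eventually h1).mono fun N hN => ⟨hN.2, ?_⟩
    obtain ⟨𝓖, h𝓖⟩ := hN.1
    refine ⟨𝓖, ?_⟩
    rwa [show k * N / 8 = k / 8 * N by ring]

end Pool.Agent.U47.EAT
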