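import Pool.Agent.U47.EAT.Side
import Pool.Agent.U47.EAT.RProb
import Pool.Agent.U47.EAT.Net

/-!
# No interfaces near graphs
-/

set_option autoImplicit false

open MeasureTheory Filter Topology

namespace Pool.Agent.U47.EAT

open Pool.Agent.R239.EA

variable {d : ℕ}

/-- one rigid column lets no interface pass -/
theorem flat_det {a b : ℝ} (ha : 0 ≤ a) {i j : Fin d} (hij : i ≠ j) {C : Finset (Fin d → ℤ)}
    {M : ℕ} (hM : C.card ≤ M) (hab : 2 * d * M * a < b) {J : (Fin d → ℤ) × Fin d → ℝ}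
    (hR : Rig a b i C J) {σ τ : (Fin d → ℤ) → ℝ} (hσ : GA J σ) (hτ : GA J τ)
    {F : (Fin d → ℤ) → ℝ} {r : ℝ} (hF : ∀ (x : Fin d → ℤ) (z : ℤ), F (x + z • u i) = F x)
    (hW : ∀ e ∈ dC {x | σ x ≠ τ x}, |(e.1 i : ℝ) - F e.1| ≤ r ∨ |(nx e i : ℝ) - F (nx e)| ≤ r)
    {n : ℤ} (hC : ∀ z : ℤ, |(z : ℝ) - F (n • u j)| ≤ r ∨ |(z + 1 : ℝ) - F (n • u j)| ≤ r →
      n • u j + z • u i ∈ C) :
    (∀ x : Fin d → ℤ, r < |(x i : ℝ) - F x| → σ x = τ x) ∨
      (∀ x : Fin d → ℤ, r < |(x i : ℝ) - F x| → σ x ≠ τ x) := by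
  classical
  obtain ⟨D, hDD⟩ : ∃ D : Set (Fin d → ℤ), D = {x | σ x ≠ τ x} := ⟨_, rfl⟩
  have hmD : ∀ x, x ∈ D ↔ σ x ≠ τ x := by intro x; rw [hDD]; rfl
  rw [← hDD] at hW
  obtain ⟨x0, hx0⟩ : ∃ x0 : Fin d → ℤ, x0 = n • u j := ⟨_, rfl⟩
  rw [← hx0] at hC
  have hi0 : ∀ z : ℤ, (x0 + z • u i) i = z := by
    intro z
    rw [hx0]
    simp only [Pi.add_apply, Pi.smul_apply, u_same, u_ne hij, smul_eq_mul, mul_one, mul_zero,
      zero_add]
  have hcol : ∀ z : ℤ, (x0 + z • u i ∈ D ↔ x0 + (z + 1) • u i ∈ D) := by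
    intro z
    have h0 : x0 + (z + 1) • u i = x0 + z • u i + u i := by module
    rw [h0]
    by_contra hc
    obtain ⟨x, hx⟩ : ∃ x, x = x0 + z • u i := ⟨_, rfl⟩
    have he : ((x0 + z • u i, i) : (Fin d → ℤ) × Fin d) ∈ dC D := hc
    have hxC : x ∈ C := by
      rw [hx]
      apply hC
      rcases hW _ he with h | h
      · left
        simp only [hi0, hF] at h
        exact h
      · right
        have h1 : nx ((x0 + z • u i, i) : (Fin d → ℤ) × Fin d) = x0 + (z + 1) • u i := h0.symm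
        rw [h1, hi0, hF] at h
        push_cast at h
        exact h
    rw [← hx, hmD, hmD] at hc
    have h2 := sat ha hM hab hR hσ hxC
    have h3 := sat ha hM hab hR hτ hxC
    rcases (hσ 0).1 x with h4 | h4 <;> rcases (hτ 0).1 x with h5 | h5 <;>
      rcases (hσ 0).1 (x + u i) with h6 | h6 <;> rcases (hτ 0).1 (x + u i) with h7 | h7 <;>
      rw [h4, h6] at h2 <;> rw [h5, h7] at h3 <;> rw [h4, h5, h6, h7] at hc <;>
      first
        | (exfalso; linarith)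
        | (exfalso; apply hc; norm_num)
  have hall : ∀ z : ℤ, (x0 ∈ D ↔ x0 + z • u i ∈ D) := by
    intro z
    induction z using Int.induction_on with
    | zero => simp
    | succ z ih => rw [ih]; exact hcol _
    | pred z ih =>
      rw [ih]
      have h1 := hcol (-(z : ℤ) - 1)
      rw [sub_add_cancel] at h1
      exact h1.symm
  have hside : ∀ x : Fin d → ℤ, r < |(x i : ℝ) - F x| → (x ∈ D ↔ x0 ∈ D) := by
    intro x hx
    rcases lt_abs.1 hx with h | h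
    · rw [hall (⌊F x0 + r⌋ + 1)]
      refine side hF hW (s := 1) (Or.inl rfl) x _ (by push_cast; linarith) ?_
      rw [hi0, hF]
      have := Int.lt_floor_add_one (F x0 + r)
      push_cast
      linarith
    · rw [hall (⌈F x0 - r⌉ - 1)]
      refine side hF hW (s := -1) (Or.inr rfl) x _ (by push_cast; linarith) ?_
      rw [hi0, hF]
      have := Int.ceil_lt_add_one (F x0 - r)
      push_cast
      linarith
  by_cases h : x0 ∈ D
  · right
    intro x hx
    rw [← hmD]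
    exact (hside x hx).2 h
  · left
    intro x hx
    by_contra hne
    exact h ((hside x hx).1 ((hmD x).2 hne))

variable (μ : Measure ℝ) [IsProbabilityMeasure μ]

/-- the almost sure statement, for bounded data -/
theorem flat {a b : ℝ} (ha0 : 0 ≤ a) {i j : Fin d} (hij : i ≠ j) (r : ℕ)
    (hab : 2 * d * (2 * (1 * (2 * (r + 1) + 1) ^ (d - 1)) : ℕ) * a < b)
    (ha : μ {x | |x| ≤ a} ≠ 0) (hb : μ {x | b ≤ |x|} ≠ 0) :
    ∃ δ : ℝ, 0 < δ ∧ ∀ᵐ J ∂(Lw μ d), ∀ (F : (Fin d → ℤ) → ℝ) (p : Polynomial ℝ) (f : ℤ → ℤ),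
      (∀ (x : Fin d → ℤ) (z : ℤ), F (x + z • u i) = F x) →
      (∀ n : ℤ, F (n • u j) = p.eval (n : ℝ) + f n) →
      (∃ B : ℝ, ∀ N : ℕ,
        ((∑ n ∈ Finset.Ico (-(N : ℤ)) N, |f (n + 1) - f n| : ℤ) : ℝ) ≤ δ * N + B) →
      ∀ σ τ : (Fin d → ℤ) → ℝ, GA J σ → GA J τ →
        (∀ e ∈ dC {x | σ x ≠ τ x}, |(e.1 i : ℝ) - F e.1| ≤ r ∨ |(nx e i : ℝ) - F (nx e)| ≤ r) →
        (∀ x : Fin d → ℤ, r < |(x i : ℝ) - F x| → σ x = τ x) ∨
          (∀ x : Fin d → ℤ, r < |(x i : ℝ) - F x| → σ x ≠ τ x) := by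
  obtain ⟨ε, hε, h⟩ := rigS μ ha0 hij hab ha hb
  obtain ⟨δ, hδ, hn⟩ := net2 j r 1 hε
  refine ⟨δ, hδ, ?_⟩
  have key : ∀ᵐ J ∂(Lw μ d), ∀ R B : ℕ, ∀ S ∈ Fam2 j r 1 R B δ,
      ∃ (n : ℤ) (C : Finset (Fin d → ℤ)), Rig a b i C J ∧
        C.card ≤ 2 * (1 * (2 * (r + 1) + 1) ^ (d - 1)) ∧
        ∀ x, x j = n → (x ∈ S ∨ x + u i ∈ S) → x ∈ C := by
    simp only [ae_all_iff]
    exact fun R B => h _ (Eventually.frequently (hn R B))
  filter_upwards [key] with J hJ F p f hF hp hf σ τ hσ hτ hW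
  obtain ⟨p', hp'⟩ : ∃ p' : Fin 1 → Fin d → Polynomial ℝ, p' = fun _ k => if k = i then p else 0 :=
    ⟨_, rfl⟩
  obtain ⟨f', hf'⟩ : ∃ f' : Fin 1 → Fin d → ℤ → ℤ, f' = fun _ k => if k = i then f else 0 :=
    ⟨_, rfl⟩
  obtain ⟨R, B, hS⟩ := mem_Fam2 j r p' f' (δ := δ) (by
    obtain ⟨B, hB⟩ := hf
    refine ⟨max B 0, fun l k N => ?_⟩
    rw [hf']
    simp only
    by_cases hk : k = i
    · rw [if_pos hk]
      exact (hB N).trans (add_le_add le_rfl (le_max_left _ _))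
    · rw [if_neg hk]
      simp only [Pi.zero_apply, sub_self, abs_zero, Finset.sum_const_zero, Int.cast_zero]
      have : 0 ≤ max B 0 := le_max_right _ _
      positivity)
  obtain ⟨n, C, hR, hCc, hC⟩ := hJ R B _ hS
  refine flat_det ha0 hij hCc hab hR hσ hτ hF hW (n := n) fun z hz => ?_
  have hmem : ∀ z : ℤ, |(z : ℝ) - F (n • u j)| ≤ r → n • u j + z • u i ∈ Tub2 j r p' f' := by
    intro z hz
    refine ⟨0, fun k hk => ?_⟩
    have hxj : (n • u j + z • u i) j = n := by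
      simp only [Pi.add_apply, Pi.smul_apply, u_same, u_ne hij.symm, smul_eq_mul, mul_one,
        mul_zero, add_zero]
    rw [hxj, hp', hf']
    simp only
    by_cases hki : k = i
    · rw [if_pos hki, if_pos hki, ← hp n, hki]
      have hxi : (n • u j + z • u i) i = z := by
        simp only [Pi.add_apply, Pi.smul_apply, u_same, u_ne hij, smul_eq_mul, mul_one,
          mul_zero, zero_add]
      rw [hxi]
      exact hz
    · rw [if_neg hki, if_neg hki]
      have hxk : (n • u j + z • u i) k = 0 := by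
        simp only [Pi.add_apply, Pi.smul_apply, u_ne hk, u_ne hki, smul_eq_mul, mul_zero,
          add_zero]
      rw [hxk]
      simp
  refine hC _ ?_ ?_
  · simp only [Pi.add_apply, Pi.smul_apply, u_same, u_ne hij.symm, smul_eq_mul, mul_one,
      mul_zero, add_zero]
  · rcases hz with h1 | h1
    · exact Or.inl (hmem z h1)
    · right
      have h2 : n • u j + z • u i + u i = n • u j + (z + 1) • u i := by module
      rw [h2]
      refine hmem (z + 1) ?_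
      push_cast
      exact h1

end Pool.Agent.U47.EAT
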