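import Pool.Agent.U47.EAT.Poly

/-!
# Counting lattice curves of small variation
-/

set_option autoImplicit false

open MeasureTheory Filter Topology

namespace Pool.Agent.U47.EAT

/-- geometric sums over symmetric intervals -/
lemma geo {x : ℝ} (hx0 : 0 < x) (hx1 : x ≤ 1 / 2) (V : ℕ) :
    ∑ z ∈ Finset.Icc (-(V : ℤ)) V, x ^ z.natAbs ≤ 1 + 4 * x - 4 * x ^ (V + 1) := by
  induction V with
  | zero => simp
  | succ V ih =>
    have h1 : Finset.Icc (-((V + 1 : ℕ) : ℤ)) ((V + 1 : ℕ) : ℤ) =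
        insert (-((V + 1 : ℕ) : ℤ)) (insert ((V + 1 : ℕ) : ℤ) (Finset.Icc (-(V : ℤ)) V)) := by
      ext z
      simp only [Finset.mem_insert, Finset.mem_Icc]
      push_cast
      omega
    rw [h1, Finset.sum_insert, Finset.sum_insert, Int.natAbs_neg, Int.natAbs_natCast]
    · have h2 : x ^ (V + 1 + 1) = x ^ (V + 1) * x := pow_succ _ _
      have h3 : 0 < x ^ (V + 1) := by positivity
      have h4 : x ^ (V + 1) * x ≤ x ^ (V + 1) * (1 / 2) := by gcongr
      rw [h2]
      linarith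
    · simp only [Finset.mem_Icc]; push_cast; omega
    · simp only [Finset.mem_insert, Finset.mem_Icc]; push_cast; omega

/-- the increments with sum of absolute values at most `V` -/
noncomputable def incr (L V : ℕ) : Finset (Fin L → ℤ) :=
  (Fintype.piFinset fun _ => Finset.Icc (-(V : ℤ)) V).filter fun g => ∑ k, (g k).natAbs ≤ V

lemma card_incr (L V : ℕ) {t : ℝ} (ht : Real.exp (-t) ≤ 1 / 2) :
    ((incr L V).card : ℝ) ≤ Real.exp (t * V + 4 * Real.exp (-t) * L) := by
  obtain ⟨x, hx⟩ : ∃ x, x = Real.exp (-t) := ⟨_, rfl⟩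
  have hx0 : 0 < x := by rw [hx]; exact Real.exp_pos _
  rw [← hx] at ht ⊢
  have ht0 : 0 ≤ t := by
    by_contra h
    push Not at h
    have h1 : (1:ℝ) ≤ x := by rw [hx]; exact Real.one_le_exp (by linarith)
    linarith
  have hsum := Finset.prod_univ_sum (fun _ : Fin L => Finset.Icc (-(V : ℤ)) V)
    (fun _ (z : ℤ) => x ^ z.natAbs)
  have h1 : ((incr L V).card : ℝ) ≤ ∑ g ∈ Fintype.piFinset (fun _ : Fin L =>
      Finset.Icc (-(V : ℤ)) V), Real.exp (t * V) * ∏ k, x ^ (g k).natAbs := by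
    calc ((incr L V).card : ℝ) = ∑ g ∈ incr L V, (1 : ℝ) := by simp
      _ ≤ ∑ g ∈ incr L V, Real.exp (t * V) * ∏ k, x ^ (g k).natAbs := by
          refine Finset.sum_le_sum fun g hg => ?_
          have h2 : ∑ k, (g k).natAbs ≤ V := (Finset.mem_filter.1 hg).2
          rw [Finset.prod_pow_eq_pow_sum, hx, ← Real.exp_nat_mul, ← Real.exp_add]
          refine Real.one_le_exp ?_
          have h3 : ((∑ k, (g k).natAbs : ℕ) : ℝ) ≤ V := by exact_mod_cast h2
          nlinarith
      _ ≤ _ := Finset.sum_le_sum_of_subset_of_nonneg (Finset.filter_subset _ _)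
          fun g _ _ => by positivity
  refine h1.trans ?_
  rw [← Finset.mul_sum, ← hsum, Real.exp_add]
  refine mul_le_mul_of_nonneg_left ?_ (Real.exp_pos _).le
  rw [Finset.prod_const, Finset.card_univ, Fintype.card_fin]
  have h2 : ∑ z ∈ Finset.Icc (-(V : ℤ)) V, x ^ z.natAbs ≤ Real.exp (4 * x) := by
    have h3 := geo hx0 ht V
    have h4 : 0 < x ^ (V + 1) := by positivity
    have h5 := Real.add_one_le_exp (4 * x)
    linarith
  calc (∑ z ∈ Finset.Icc (-(V : ℤ)) V, x ^ z.natAbs) ^ L ≤ (Real.exp (4 * x)) ^ L :=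
        pow_le_pow_left₀ (Finset.sum_nonneg fun z _ => by positivity) h2 L
    _ = Real.exp (4 * x * L) := by rw [← Real.exp_nat_mul]; congr 1; ring

/-- the curve with the increments `g`, starting at height `-N` -/
noncomputable def rec (N : ℕ) (c : ℤ) (g : Fin (2 * N) → ℤ) (n : ℤ) : ℤ :=
  c + ∑ k ∈ Finset.range (n + N).toNat, if h : k < 2 * N then g ⟨k, h⟩ else 0

/-- the curves of variation at most `V` up to height `N`, starting at most at distance `C` -/
noncomputable def crv (N V C : ℕ) : Finset (ℤ → ℤ) := by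
  classical
  exact (Finset.Icc (-(C : ℤ)) C ×ˢ incr (2 * N) V).image fun cg => rec N cg.1 cg.2

lemma card_crv (N V C : ℕ) {t : ℝ} (ht : Real.exp (-t) ≤ 1 / 2) :
    ((crv N V C).card : ℝ) ≤ (2 * C + 1) *
      Real.exp (t * V + 8 * Real.exp (-t) * N) := by
  classical
  have h1 : (crv N V C).card ≤ (2 * C + 1) * (incr (2 * N) V).card := by
    unfold crv
    refine Finset.card_image_le.trans ?_
    rw [Finset.card_product, Int.card_Icc]
    refine Nat.mul_le_mul_right _ ?_
    omega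
  have h2 := card_incr (2 * N) V ht
  have h3 : ((crv N V C).card : ℝ) ≤ (2 * C + 1) * ((incr (2 * N) V).card : ℝ) := by
    exact_mod_cast h1
  refine h3.trans (mul_le_mul_of_nonneg_left (h2.trans (le_of_eq ?_)) (by positivity))
  congr 1
  push_cast
  ring

lemma mem_crv {N V C : ℕ} {f : ℤ → ℤ} (h0 : |f (-(N : ℤ))| ≤ C)
    (hV : ∑ n ∈ Finset.Ico (-(N : ℤ)) N, |f (n + 1) - f n| ≤ V) :
    ∃ φ ∈ crv N V C, ∀ n : ℤ, |n| ≤ N → φ n = f n := by
  classical
  obtain ⟨F, hF⟩ : ∃ F : ℕ → ℤ, F = fun k : ℕ => f (-(N : ℤ) + (k : ℤ)) := ⟨_, rfl⟩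
  have hs : ∑ n ∈ Finset.Ico (-(N : ℤ)) N, |f (n + 1) - f n| =
      ∑ k ∈ Finset.range (2 * N), |F (k + 1) - F k| := by
    rw [Int.Ico_eq_finset_map, Finset.sum_map]
    have h1 : ((N : ℤ) - -(N : ℤ)).toNat = 2 * N := by omega
    rw [h1]
    refine Finset.sum_congr rfl fun k _ => ?_
    rw [hF]
    simp only [Function.Embedding.trans_apply, Nat.castEmbedding_apply, addLeftEmbedding_apply]
    push_cast
    rw [add_assoc]
  rw [hs] at hV
  have hV' : ∑ k : Fin (2 * N), (F (k + 1) - F k).natAbs ≤ V := by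
    rw [Finset.sum_range] at hV
    have h2 : ((∑ k : Fin (2 * N), (F (k + 1) - F k).natAbs : ℕ) : ℤ) ≤ V := by
      push_cast
      exact hV
    exact_mod_cast h2
  refine ⟨rec N (f (-(N : ℤ))) (fun k => F (k + 1) - F k), ?_, ?_⟩
  · unfold crv
    refine Finset.mem_image.2 ⟨(f (-(N : ℤ)), fun k => F (k + 1) - F k), ?_, rfl⟩
    refine Finset.mem_product.2 ⟨Finset.mem_Icc.2 (abs_le.1 h0), ?_⟩
    unfold incr
    refine Finset.mem_filter.2 ⟨?_, hV'⟩
    rw [Fintype.mem_piFinset]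
    intro k
    have h3 : (F (k + 1) - F k).natAbs ≤ V :=
      (Finset.single_le_sum (f := fun k : Fin (2 * N) => (F (k + 1) - F k).natAbs)
        (fun _ _ => Nat.zero_le _) (Finset.mem_univ k)).trans hV'
    rw [Finset.mem_Icc]
    simp only
    omega
  · intro n hn
    obtain ⟨hn1, hn2⟩ := abs_le.1 hn
    unfold rec
    have h4 : ∑ k ∈ Finset.range (n + N).toNat, (if h : k < 2 * N then
        (fun k : Fin (2 * N) => F (k + 1) - F k) ⟨k, h⟩ else 0) =
        ∑ k ∈ Finset.range (n + N).toNat, (F (k + 1) - F k) := by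
      refine Finset.sum_congr rfl fun k hk => ?_
      have h5 := Finset.mem_range.1 hk
      rw [dif_pos (by omega)]
    rw [h4, Finset.sum_range_sub, hF]
    simp only
    have h6 : -(N : ℤ) + ((n + N).toNat : ℤ) = n := by omega
    rw [h6]
    simp

end Pool.Agent.U47.EAT
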