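import Pool.Agent.R239.EA.H

/-!
# Edwards-Anderson ground states: rigid finite sets

A finite set `C` of sites is rigid in the direction `i` if the bonds `(x, i)`, `x ∈ C`, are strong and
all the other bonds which touch `C` are weak. Then the strong bonds are satisfied in every ground state.
-/

set_option autoImplicit false

namespace Pool.Agent.U47.EAT

open Pool.Agent.R239.EA

variable {d : ℕ}

/-- the bonds which touch `C` -/
noncomputable def tch (C : Finset (Fin d → ℤ)) : Finset ((Fin d → ℤ) × Fin d) := by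
  classical
  exact (C ×ˢ Finset.univ) ∪ (C ×ˢ Finset.univ).image (fun e => (e.1 - u e.2, e.2))

lemma mem_tch {C : Finset (Fin d → ℤ)} {e : (Fin d → ℤ) × Fin d} :
    e ∈ tch C ↔ e.1 ∈ C ∨ nx e ∈ C := by
  classical
  unfold tch
  rw [Finset.mem_union, Finset.mem_product, Finset.mem_image]
  constructor
  · rintro (h | ⟨f, hf, hfe⟩)
    · exact Or.inl h.1
    · rw [Finset.mem_product] at hf
      right
      rw [← hfe]
      unfold nx
      simpa using hf.1
  · rintro (h | h)
    · exact Or.inl ⟨h, Finset.mem_univ _⟩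
    · right
      refine ⟨(nx e, e.2), Finset.mem_product.2 ⟨h, Finset.mem_univ _⟩, ?_⟩
      unfold nx
      simp

lemma card_tch (C : Finset (Fin d → ℤ)) : (tch C).card ≤ 2 * d * C.card := by
  classical
  unfold tch
  have h1 : (C ×ˢ (Finset.univ : Finset (Fin d))).card = C.card * d := by
    rw [Finset.card_product, Finset.card_univ, Fintype.card_fin]
  calc ((C ×ˢ Finset.univ) ∪ (C ×ˢ Finset.univ).image
        (fun e : (Fin d → ℤ) × Fin d => (e.1 - u e.2, e.2))).card
      ≤ (C ×ˢ (Finset.univ : Finset (Fin d))).card + ((C ×ˢ Finset.univ).image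
        (fun e : (Fin d → ℤ) × Fin d => (e.1 - u e.2, e.2))).card := Finset.card_union_le _ _
    _ ≤ (C ×ˢ (Finset.univ : Finset (Fin d))).card + (C ×ˢ (Finset.univ : Finset (Fin d))).card :=
        Nat.add_le_add_left Finset.card_image_le _
    _ = 2 * d * C.card := by rw [h1]; ring

/-- rigid sets -/
def Rig (a b : ℝ) (i : Fin d) (C : Finset (Fin d → ℤ)) (J : (Fin d → ℤ) × Fin d → ℝ) : Prop :=
  ∀ e ∈ tch C, (e.2 = i ∧ e.1 ∈ C → b ≤ |J e|) ∧ (¬ (e.2 = i ∧ e.1 ∈ C) → |J e| ≤ a)

lemma pm_mul {s t : ℝ} (hs : s = 1 ∨ s = -1) (ht : t = 1 ∨ t = -1) : s * t = 1 ∨ s * t = -1 := by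
  rcases hs with h | h <;> rcases ht with h' | h' <;> rw [h, h'] <;> norm_num

/-- the part of `C` which hangs on `x` -/
noncomputable def br (i : Fin d) (C : Finset (Fin d → ℤ)) (x : Fin d → ℤ) : Finset (Fin d → ℤ) := by
  classical
  exact C.filter fun y => ∃ t : ℕ, y = x - (t : ℤ) • u i ∧ ∀ s : ℕ, s ≤ t → x - (s : ℤ) • u i ∈ C

lemma mem_br {i : Fin d} {C : Finset (Fin d → ℤ)} {x y : Fin d → ℤ} :
    y ∈ br i C x ↔ ∃ t : ℕ, y = x - (t : ℤ) • u i ∧ ∀ s : ℕ, s ≤ t → x - (s : ℤ) • u i ∈ C := by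
  classical
  unfold br
  rw [Finset.mem_filter]
  constructor
  · exact fun h => h.2
  · rintro ⟨t, ht, hs⟩
    exact ⟨by rw [ht]; exact hs t le_rfl, t, ht, hs⟩

/-- strong bonds of rigid sets are satisfied -/
theorem sat {a b : ℝ} (ha : 0 ≤ a) {i : Fin d} {C : Finset (Fin d → ℤ)} {M : ℕ} (hM : C.card ≤ M)
    (hab : 2 * d * M * a < b) {J : (Fin d → ℤ) × Fin d → ℝ} (hR : Rig a b i C J)
    {σ : (Fin d → ℤ) → ℝ} (hσ : GA J σ) {x : Fin d → ℤ} (hx : x ∈ C) :
    0 < J (x, i) * (σ x * σ (x + u i)) := by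
  classical
  obtain ⟨T, hT⟩ : ∃ T, T = br i C x := ⟨_, rfl⟩
  have hTC : T ⊆ C := by
    rw [hT]; unfold br; exact Finset.filter_subset _ _
  have hxT : x ∈ T := by
    rw [hT, mem_br]
    exact ⟨0, by simp, fun s hs => by
      have : s = 0 := by omega
      rw [this]; simpa using hx⟩
  have hfin := dC_finite (d := d) T.finite_toSet
  obtain ⟨n, hn⟩ : ∃ n : ℕ, T ⊆ bx 0 n := by
    refine ⟨T.sup nrm, fun y hy => ?_⟩
    rw [mem_bx, sub_zero]
    exact Finset.le_sup (f := nrm) hy
  have h0 := (hσ n).2 T ⟨x, hxT⟩ hn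
  rw [finsum_mem_eq_finite_toFinset_sum _ hfin] at h0
  have hxd : ((x, i) : (Fin d → ℤ) × Fin d) ∈ hfin.toFinset := by
    rw [hfin.mem_toFinset]
    unfold dC
    simp only [Set.mem_ofPred_eq, Finset.mem_coe]
    intro hc
    have h1 : nx ((x, i) : (Fin d → ℤ) × Fin d) ∈ T := hc.1 hxT
    rw [hT, mem_br] at h1
    obtain ⟨t, ht, -⟩ := h1
    have h2 := congrFun ht i
    unfold nx at h2
    simp only [Pi.add_apply, Pi.sub_apply, Pi.smul_apply, u_same, smul_eq_mul, mul_one] at h2
    have : (0:ℤ) ≤ t := Int.natCast_nonneg t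
    omega
  rw [← Finset.add_sum_erase _ _ hxd] at h0
  have hw : ∀ e ∈ hfin.toFinset.erase (x, i), |J e * (σ e.1 * σ (nx e))| ≤ a := by
    intro e he
    rw [Finset.mem_erase, hfin.mem_toFinset] at he
    obtain ⟨hne, hd'⟩ := he
    have hend := dC_end hd'
    have het : e ∈ tch C := by
      rw [mem_tch]
      rcases hend with h | h
      · exact Or.inl (hTC h)
      · exact Or.inr (hTC h)
    have hns : ¬ (e.2 = i ∧ e.1 ∈ C) := by
      rintro ⟨h2, h1⟩
      have hnx : nx e = e.1 + u i := by unfold nx; rw [h2]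
      unfold dC at hd'
      simp only [Set.mem_ofPred_eq, Finset.mem_coe] at hd'
      apply hd'
      constructor
      · intro hy
        rw [hT, mem_br] at hy
        obtain ⟨t, ht, hs⟩ := hy
        rcases Nat.eq_zero_or_pos t with h3 | h3
        · exfalso
          apply hne
          have h4 : e.1 = x := by rw [ht, h3]; simp
          exact Prod.ext h4 h2
        · rw [hT, mem_br, hnx]
          refine ⟨t - 1, ?_, fun s hs' => hs s (by omega)⟩
          rw [ht, Nat.cast_sub h3]
          simp only [Nat.cast_one]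
          module
      · intro hy
        rw [hT, mem_br, hnx] at hy
        obtain ⟨t, ht, hs⟩ := hy
        rw [hT, mem_br]
        have h5 : e.1 = x - ((t + 1 : ℕ) : ℤ) • u i := by
          have h6 : e.1 = x - (t : ℤ) • u i - u i := by rw [← ht]; abel
          rw [h6, Nat.cast_add]
          simp only [Nat.cast_one]
          module
        refine ⟨t + 1, h5, fun s hs' => ?_⟩
        rcases Nat.lt_or_ge t s with h7 | h7
        · have : s = t + 1 := by omega
          rw [this, ← h5]; exact h1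
        · exact hs s h7
    have h8 := (hR e het).2 hns
    have h9 : |σ e.1 * σ (nx e)| = 1 := by
      rcases pm_mul ((hσ 0).1 e.1) ((hσ 0).1 (nx e)) with h | h <;> rw [h] <;> simp
    rw [abs_mul, h9, mul_one]
    exact h8
  have hcard : ((hfin.toFinset.erase (x, i)).card : ℝ) ≤ 2 * d * M := by
    have h1 : (hfin.toFinset.erase (x, i)).card ≤ (tch T).card := by
      refine Finset.card_le_card fun e he => ?_
      rw [Finset.mem_erase, hfin.mem_toFinset] at he
      rw [mem_tch]
      exact dC_end he.2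
    have h2 := card_tch T
    have h3 : T.card ≤ M := (Finset.card_le_card hTC).trans hM
    have h4 : (hfin.toFinset.erase (x, i)).card ≤ 2 * d * M :=
      h1.trans (h2.trans (Nat.mul_le_mul_left _ h3))
    exact_mod_cast h4
  have hsum : ∑ e ∈ hfin.toFinset.erase (x, i), J e * (σ e.1 * σ (nx e)) ≤ 2 * d * M * a := by
    calc ∑ e ∈ hfin.toFinset.erase (x, i), J e * (σ e.1 * σ (nx e))
        ≤ ∑ e ∈ hfin.toFinset.erase (x, i), a :=
          Finset.sum_le_sum fun e he => (le_abs_self _).trans (hw e he)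
      _ = (hfin.toFinset.erase (x, i)).card * a := by rw [Finset.sum_const, nsmul_eq_mul]
      _ ≤ 2 * d * M * a := mul_le_mul_of_nonneg_right hcard ha
  have hb : b ≤ |J (x, i)| :=
    (hR (x, i) (mem_tch.2 (Or.inl hx))).1 ⟨rfl, hx⟩
  have hnx0 : nx ((x, i) : (Fin d → ℤ) × Fin d) = x + u i := rfl
  rw [hnx0] at h0
  simp only at h0
  rcases pm_mul ((hσ 0).1 x) ((hσ 0).1 (x + u i)) with h | h
  · rw [h, mul_one] at h0 ⊢
    by_contra hc
    push Not at hc
    rw [abs_of_nonpos hc] at hb
    linarith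
  · rw [h, mul_neg, mul_one] at h0 ⊢
    by_contra hc
    push Not at hc
    have : 0 ≤ J (x, i) := by linarith
    rw [abs_of_nonneg this] at hb
    linarith

/-- on a rigid set whose complement in its hyperplane carries no difference there is no difference -/
theorem agree {a b : ℝ} (ha : 0 ≤ a) {i j : Fin d} (hij : i ≠ j) {C : Finset (Fin d → ℤ)} {M : ℕ}
    (hM : C.card ≤ M) (hab : 2 * d * M * a < b) {J : (Fin d → ℤ) × Fin d → ℝ}
    (hR : Rig a b i C J) {σ τ : (Fin d → ℤ) → ℝ} (hσ : GA J σ) (hτ : GA J τ) {n : ℤ}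
    (hout : ∀ x, x j = n → x ∉ C → σ x = τ x) : ∀ x, x j = n → σ x = τ x := by
  have key : ∀ t : ℕ, ∀ x : Fin d → ℤ, x j = n → x + (t : ℤ) • u i ∉ C → σ x = τ x := by
    intro t
    induction t with
    | zero => intro x hx h; exact hout x hx (by simpa using h)
    | succ t ih =>
      intro x hx h
      by_cases hc : x ∈ C
      · have h1 : σ (x + u i) = τ (x + u i) := by
          refine ih (x + u i) ?_ ?_
          · simp only [Pi.add_apply, u_ne hij.symm, add_zero]; exact hx
          · have : x + u i + (t : ℤ) • u i = x + ((t + 1 : ℕ) : ℤ) • u i := by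
              push_cast; module
            rw [this]; exact h
        have h2 := sat ha hM hab hR hσ hc
        have h3 := sat ha hM hab hR hτ hc
        rcases (hσ 0).1 x with h4 | h4 <;> rcases (hτ 0).1 x with h5 | h5 <;> rw [h4, h5]
        · exfalso
          rw [h4, h1] at h2; rw [h5] at h3; linarith
        · exfalso
          rw [h4, h1] at h2; rw [h5] at h3; linarith
      · exact hout x hx hc
  intro x hx
  refine key ((C.sup fun y => (y i).natAbs) + (x i).natAbs + 1) x hx fun hc => ?_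
  have h1 := Finset.le_sup (f := fun y : Fin d → ℤ => (y i).natAbs) hc
  simp only [Pi.add_apply, Pi.smul_apply, u_same, smul_eq_mul, mul_one] at h1
  push_cast at h1
  have h2 : (C.sup fun y => (y i).natAbs) < (x i + ((C.sup fun y => (y i).natAbs : ℕ) +
      |x i| + 1)).natAbs := by
    have h3 : (0:ℤ) ≤ x i + |x i| := by linarith [neg_abs_le (x i)]
    omega
  omega

/-- nothing between two clean hyperplanes -/
theorem between {J : (Fin d → ℤ) × Fin d → ℝ} {σ τ : (Fin d → ℤ) → ℝ} (hσ : GA J σ) (hτ : GA J τ)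
    {j : Fin d} {p q : ℤ} (hp : ∀ x, x j = p → σ x = τ x) (hq : ∀ x, x j = q → σ x = τ x)
    (hfin : {x | p < x j ∧ x j < q ∧ σ x ≠ τ x}.Finite) :
    ∀ x, p < x j → x j < q → σ x = τ x := by
  classical
  intro x hxp hxq
  by_contra hne
  have hmem : ∀ y, y ∈ hfin.toFinset ↔ p < y j ∧ y j < q ∧ σ y ≠ τ y := by
    intro y; rw [hfin.mem_toFinset]; rfl
  obtain ⟨n, hn⟩ : ∃ n : ℕ, hfin.toFinset ⊆ bx 0 n := by
    refine ⟨hfin.toFinset.sup nrm, fun y hy => ?_⟩
    rw [mem_bx, sub_zero]
    exact Finset.le_sup (f := nrm) hy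
  have hstep : ∀ e : (Fin d → ℤ) × Fin d, |nx e j - e.1 j| ≤ 1 := by
    intro e
    unfold nx
    simp only [Pi.add_apply, add_sub_cancel_left]
    by_cases h : j = e.2
    · rw [h, u_same]; simp
    · rw [u_ne h]; simp
  refine contra (hσ n) (hτ n) ⟨x, (hmem x).2 ⟨hxp, hxq, hne⟩⟩ hn (fun _ _ => rfl) ?_
  intro e he
  have hs := hstep e
  rw [abs_le] at hs
  unfold dC at he ⊢
  simp only [Set.mem_ofPred_eq, Finset.mem_coe, hmem] at he ⊢
  intro hc
  apply he
  constructor
  · rintro ⟨h1, h2, h3⟩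
    have h4 := hc.1 h3
    refine ⟨?_, ?_, h4⟩
    · by_contra h5
      exact h4 (hp _ (by omega))
    · by_contra h5
      exact h4 (hq _ (by omega))
  · rintro ⟨h1, h2, h3⟩
    have h4 := hc.2 h3
    refine ⟨?_, ?_, h4⟩
    · by_contra h5
      exact h4 (hp _ (by omega))
    · by_contra h5
      exact h4 (hq _ (by omega))

end Pool.Agent.U47.EAT
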