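import Pool.Agent.U47.EAT.Poly

/-!
# Growing widths, for laws with a power of mass near zero
-/

set_option autoImplicit false

open MeasureTheory Filter Topology

namespace Pool.Agent.U47.EAT

open Pool.Agent.R239.EA

variable {d : ℕ}

lemma tendsto_LL : Tendsto (fun N : ℕ => Real.log (Real.log N)) atTop atTop :=
  Real.tendsto_log_atTop.comp (Real.tendsto_log_atTop.comp tendsto_natCast_atTop_atTop)

lemma asym {c α : ℝ} (hc : 0 < c) (hα : 0 ≤ α) {M : ℕ → ℕ}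
    (hM : Tendsto (fun N : ℕ => (M N : ℝ) * Real.log (Real.log N) / Real.log N) atTop (𝓝 0)) :
    ∀ᶠ N : ℕ in atTop, 16 * Real.log N ≤ (c * (2 * d * M N + 1 : ℝ) ^ (-α)) ^ (2 * d * M N) * N ∧
      √(N : ℝ) ≤ (c * (2 * d * M N + 1 : ℝ) ^ (-α)) ^ (2 * d * M N) * N / 8 := by
  obtain ⟨δ, hδ⟩ : ∃ δ : ℝ, δ = 1 / (8 * (d + 1) * (1 + α)) := ⟨_, rfl⟩
  have hd0 : (0:ℝ) ≤ d := Nat.cast_nonneg d
  have hδ0 : 0 < δ := by rw [hδ]; positivity
  have hδ1 : 2 * d * (1 + α) * δ ≤ 1 / 4 := by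
    rw [hδ, mul_one_div, div_le_div_iff₀ (by positivity) (by norm_num)]
    nlinarith
  have hδ2 : 2 * d * δ ≤ 1 / 4 := by
    refine le_trans ?_ hδ1
    have : 0 ≤ 2 * d * δ * α := by positivity
    nlinarith
  have hLN : Tendsto (fun N : ℕ => Real.log N) atTop atTop :=
    Real.tendsto_log_atTop.comp tendsto_natCast_atTop_atTop
  filter_upwards [hM.eventually (gt_mem_nhds hδ0), tendsto_LL.eventually_ge_atTop 1,
    tendsto_LL.eventually_ge_atTop (-Real.log c), hLN.eventually_ge_atTop 57,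
    eventually_ge_atTop 1] with N h1 h2 h3 h4 h5
  obtain ⟨L, hL⟩ : ∃ L, L = Real.log N := ⟨_, rfl⟩
  rw [← hL] at h1 h2 h3 h4 ⊢
  have hN0 : (0:ℝ) < N := by exact_mod_cast h5
  have hL0 : 0 < L := by linarith
  have hMn : (0:ℝ) ≤ M N := Nat.cast_nonneg _
  have e1 : (M N : ℝ) * Real.log L ≤ δ * L := by
    rw [div_lt_iff₀ hL0] at h1; exact h1.le
  have e2 : (M N : ℝ) ≤ δ * L := by nlinarith
  have hK1 : (1:ℝ) ≤ 2 * d * M N + 1 := by
    have : (0:ℝ) ≤ 2 * d * M N := by positivity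
    linarith
  have hKL : (2 * d * M N + 1 : ℝ) ≤ L := by
    have h6 : 2 * d * (M N : ℝ) ≤ 2 * d * (δ * L) := by gcongr
    have h7 : 2 * d * (δ * L) ≤ 1 / 4 * L := by
      have := mul_le_mul_of_nonneg_right hδ2 hL0.le
      linarith
    linarith
  have hlogK : Real.log (2 * d * M N + 1 : ℝ) ≤ Real.log L :=
    Real.log_le_log (by linarith) hKL
  have hx0 : 0 < c * (2 * d * M N + 1 : ℝ) ^ (-α) := by positivity
  have hlog : Real.log (c * (2 * d * M N + 1 : ℝ) ^ (-α)) ≥ -((1 + α) * Real.log L) := by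
    rw [Real.log_mul hc.ne' (by positivity), Real.log_rpow (by linarith)]
    nlinarith
  have hk : Real.exp (-(L / 4)) ≤ (c * (2 * d * M N + 1 : ℝ) ^ (-α)) ^ (2 * d * M N) := by
    rw [← Real.exp_log hx0, ← Real.exp_nat_mul]
    apply Real.exp_le_exp.2
    push_cast
    have h8 : (2 * d * M N : ℝ) * ((1 + α) * Real.log L) ≤ L / 4 := by
      have h9 : (2 * d * M N : ℝ) * ((1 + α) * Real.log L) =
          2 * d * (1 + α) * ((M N : ℝ) * Real.log L) := by ring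
      rw [h9]
      have h10 : 2 * d * (1 + α) * ((M N : ℝ) * Real.log L) ≤ 2 * d * (1 + α) * (δ * L) := by
        gcongr
      have h11 := mul_le_mul_of_nonneg_right hδ1 hL0.le
      linarith
    have h12 : (0:ℝ) ≤ 2 * d * M N := by positivity
    have h13 := mul_le_mul_of_nonneg_left hlog h12
    linarith
  have hkN : Real.exp (3 * L / 4) ≤ (c * (2 * d * M N + 1 : ℝ) ^ (-α)) ^ (2 * d * M N) * N := by
    calc Real.exp (3 * L / 4) = Real.exp (-(L / 4)) * N := by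
          have hN' : (N:ℝ) = Real.exp L := by rw [hL, Real.exp_log hN0]
          rw [hN', ← Real.exp_add]; congr 1; ring
      _ ≤ _ := mul_le_mul_of_nonneg_right hk hN0.le
  constructor
  · refine le_trans ?_ hkN
    have := Real.quadratic_le_exp_of_nonneg (show 0 ≤ 3 * L / 4 by positivity)
    nlinarith
  · have h14 : √(N : ℝ) = Real.exp (L / 2) := by
      rw [Real.sqrt_eq_rpow, Real.rpow_def_of_pos hN0, ← hL]; congr 1; ring
    have h15 : Real.exp (3 * L / 4) = Real.exp (L / 2) * Real.exp (L / 4) := by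
      rw [← Real.exp_add]; congr 1; ring
    have h16 := Real.add_one_le_exp (L / 4)
    have h17 : Real.exp (L / 2) * 8 ≤ Real.exp (L / 2) * Real.exp (L / 4) := by
      gcongr; linarith
    rw [h14]
    linarith

variable (μ : Measure ℝ) [IsProbabilityMeasure μ]

/-- **Thin sets, growing sizes.** -/
theorem growth {c α β : ℝ} (hc : 0 < c) (hα : 0 ≤ α)
    (hμ : ∀ t : ℝ, 0 < t → t ≤ 1 → ENNReal.ofReal (c * t ^ α) ≤ μ {x | |x| ≤ t})
    (hβ0 : 0 < β) (hβ1 : β ≤ 1) (hβ : μ {x | β ≤ |x|} ≠ 0) {i j : Fin d} (hij : i ≠ j)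
    (M : ℕ → ℕ)
    (hM : Tendsto (fun N : ℕ => (M N : ℝ) * Real.log (Real.log N) / Real.log N) atTop (𝓝 0))
    (𝓕 : Set (Set (Fin d → ℤ)))
    (hF : ∃ᶠ N : ℕ in atTop, ∃ 𝓖, Net j (M N) (Real.exp (√(N : ℝ))) 𝓕 N 𝓖) :
    ∀ᵐ J ∂(Lw μ d), ∀ S ∈ 𝓕, ∀ σ τ : (Fin d → ℤ) → ℝ, GA J σ → GA J τ →
      (∀ x, σ x ≠ τ x → x ∈ S) → σ = τ := by
  obtain ⟨qb, hqb⟩ : ∃ qb : ℝ, qb = (μ {x | β ≤ |x|}).toReal := ⟨_, rfl⟩
  have hqb0 : 0 < qb := by rw [hqb]; exact ENNReal.toReal_pos hβ (measure_ne_top _ _)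
  obtain ⟨c1, hc1⟩ : ∃ c1 : ℝ, c1 = min (c * β ^ α) qb := ⟨_, rfl⟩
  have hc10 : 0 < c1 := by rw [hc1]; exact lt_min (by positivity) hqb0
  have hK0 : ∀ N, (1:ℝ) ≤ 2 * d * M N + 1 := by
    intro N
    have : (0:ℝ) ≤ 2 * d * M N := by positivity
    linarith
  refine thinG μ hij M (fun N => β / (2 * d * M N + 1)) (fun _ => β)
    (fun N => (c1 * (2 * d * M N + 1 : ℝ) ^ (-α)) ^ (2 * d * M N)) (fun N => ?_) (fun N => ?_)
    (fun N => ?_) (fun N => ?_) 𝓕 ?_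
  · have := hK0 N
    positivity
  · have h1 := hK0 N
    rw [mul_div_assoc', div_lt_iff₀ (by linarith)]
    nlinarith
  · have := hK0 N
    positivity
  · have h1 := hK0 N
    have hp : (0:ℝ) ≤ c1 * (2 * d * M N + 1 : ℝ) ^ (-α) := by positivity
    rw [ENNReal.ofReal_pow hp]
    refine pow_le_pow_left' (le_min ?_ ?_) _
    · have h2 := hμ (β / (2 * d * M N + 1)) (by positivity) (by
        rw [div_le_one (by linarith)]; linarith)
      refine le_trans (ENNReal.ofReal_le_ofReal ?_) h2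
      rw [Real.div_rpow hβ0.le (by linarith), Real.rpow_neg (by linarith), ← mul_div_assoc,
        div_eq_mul_inv]
      refine mul_le_mul_of_nonneg_right ?_ (by positivity)
      rw [hc1]; exact min_le_left _ _
    · rw [← ENNReal.ofReal_toReal (measure_ne_top μ {x | β ≤ |x|}), ← hqb]
      apply ENNReal.ofReal_le_ofReal
      have h3 : (2 * d * M N + 1 : ℝ) ^ (-α) ≤ 1 :=
        Real.rpow_le_one_of_one_le_of_nonpos h1 (by linarith)
      have h4 : c1 ≤ qb := by rw [hc1]; exact min_le_right _ _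
      nlinarith
  · refine (hF.and_eventually (asym (d := d) hc10 hα hM)).mono fun N hN => ⟨hN.2.1, ?_⟩
    obtain ⟨𝓖, h𝓖⟩ := hN.1
    exact ⟨𝓖, h𝓖.mono_c (Real.exp_le_exp.2 hN.2.2)⟩

end Pool.Agent.U47.EAT
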