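import Pool.Agent.U47.EAT.Prob

/-!
# Tubes around the graphs of polynomial curves: nets
-/

set_option autoImplicit false

open MeasureTheory Filter Topology

namespace Pool.Agent.U47.EAT

open Pool.Agent.R239.EA

variable {d : ℕ}

/-- the union of the tubes of radius `w (|x_j|)` around the curves `x_i = p l i (x_j)` -/
def Tub (j : Fin d) (w : ℕ → ℕ) {m : ℕ} (p : Fin m → Fin d → Polynomial ℝ) : Set (Fin d → ℤ) :=
  {x | ∃ l, ∀ i, i ≠ j → |(x i : ℝ) - (p l i).eval (x j : ℝ)| ≤ w (x j).natAbs}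

/-- the curves of degree at most `r` with coefficients at most `B` -/
def Fam (j : Fin d) (w : ℕ → ℕ) (m r B : ℕ) : Set (Set (Fin d → ℤ)) :=
  {S | ∃ p : Fin m → Fin d → Polynomial ℝ,
    (∀ l i, (p l i).natDegree ≤ r ∧ ∀ k, |(p l i).coeff k| ≤ B) ∧ S = Tub j w p}

/-- few points in hyperplanes -/
lemma few (j : Fin d) (W m : ℕ) (F : Fin m → ℤ → Fin d → ℝ) (n : ℤ) :
    {x : Fin d → ℤ | x ∈ {x : Fin d → ℤ | ∃ l, ∀ i, i ≠ j → |(x i : ℝ) - F l (x j) i| ≤ W} ∧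
      x j = n}.encard ≤ ((m * (2 * W + 1) ^ (d - 1) : ℕ) : ENat) := by
  classical
  obtain ⟨T, hT⟩ : ∃ T : Fin m → Finset (Fin d → ℤ), T = fun l => Fintype.piFinset fun i =>
      if i = j then {n} else Finset.Icc ⌈F l n i - W⌉ ⌊F l n i + W⌋ := ⟨_, rfl⟩
  have hcard : ∀ l, (T l).card ≤ (2 * W + 1) ^ (d - 1) := by
    intro l
    rw [hT]
    simp only [Fintype.card_piFinset]
    rw [← Finset.mul_prod_erase _ _ (Finset.mem_univ j)]
    simp only [if_pos, Finset.card_singleton, one_mul]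
    calc ∏ x ∈ Finset.univ.erase j, (if x = j then ({n} : Finset ℤ)
          else Finset.Icc ⌈F l n x - W⌉ ⌊F l n x + W⌋).card
        ≤ ∏ x ∈ Finset.univ.erase j, (2 * W + 1) := by
          refine Finset.prod_le_prod' fun i hi => ?_
          rw [if_neg (Finset.ne_of_mem_erase hi), Int.card_Icc]
          have h1 : (⌊F l n i + W⌋ : ℝ) ≤ F l n i + W := Int.floor_le _
          have h2 : F l n i - W ≤ (⌈F l n i - W⌉ : ℝ) := Int.le_ceil _
          have h3 : (⌊F l n i + W⌋ : ℝ) - (⌈F l n i - W⌉ : ℝ) ≤ 2 * W := by linarith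
          have h4 : ⌊F l n i + W⌋ - ⌈F l n i - W⌉ ≤ 2 * (W : ℤ) := by exact_mod_cast h3
          omega
      _ = (2 * W + 1) ^ (d - 1) := by
          rw [Finset.prod_const, Finset.card_erase_of_mem (Finset.mem_univ _), Finset.card_univ,
            Fintype.card_fin]
  have hsub : {x : Fin d → ℤ | x ∈ {x : Fin d → ℤ | ∃ l, ∀ i, i ≠ j →
      |(x i : ℝ) - F l (x j) i| ≤ W} ∧ x j = n} ⊆
      ((Finset.univ.biUnion T : Finset (Fin d → ℤ)) : Set (Fin d → ℤ)) := by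
    rintro x ⟨⟨l, hl⟩, hx⟩
    rw [Finset.mem_coe, Finset.mem_biUnion]
    refine ⟨l, Finset.mem_univ _, ?_⟩
    rw [hT]
    simp only [Fintype.mem_piFinset]
    intro i
    by_cases hi : i = j
    · rw [if_pos hi, hi, hx]; exact Finset.mem_singleton_self _
    · rw [if_neg hi, Finset.mem_Icc]
      have h1 := abs_le.1 (hl i hi)
      rw [hx] at h1
      exact ⟨Int.ceil_le.2 (by linarith), Int.le_floor.2 (by linarith)⟩
  refine (Set.encard_le_encard hsub).trans ?_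
  rw [Set.encard_coe_eq_coe_finsetCard]
  have h2 : (Finset.univ.biUnion T).card ≤ m * (2 * W + 1) ^ (d - 1) := by
    refine Finset.card_biUnion_le.trans ?_
    calc ∑ l, (T l).card ≤ ∑ _l : Fin m, (2 * W + 1) ^ (d - 1) :=
          Finset.sum_le_sum fun l _ => hcard l
      _ = m * (2 * W + 1) ^ (d - 1) := by
          rw [Finset.sum_const, Finset.card_univ, Fintype.card_fin, smul_eq_mul]
  exact_mod_cast h2

/-- rounding the coefficients -/
lemma round {N r : ℕ} (hN : 1 ≤ N) {P : Polynomial ℝ} (hP : P.natDegree ≤ r) {n : ℤ}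
    (hn : |n| ≤ N) :
    |P.eval (n : ℝ) - ∑ k : Fin (r + 1), ((⌊P.coeff k * (N : ℝ) ^ r⌋ : ℤ) : ℝ) / (N : ℝ) ^ r *
      (n : ℝ) ^ (k : ℕ)| ≤ r + 1 := by
  have hN0 : (0:ℝ) < (N : ℝ) ^ r := by positivity
  rw [Polynomial.eval_eq_sum_range' (Nat.lt_succ_of_le hP), ← Fin.sum_univ_eq_sum_range
    (fun k => P.coeff k * (n : ℝ) ^ k), ← Finset.sum_sub_distrib]
  refine (Finset.abs_sum_le_sum_abs _ _).trans ?_
  calc ∑ k : Fin (r + 1), |P.coeff k * (n : ℝ) ^ (k : ℕ) -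
        ((⌊P.coeff k * (N : ℝ) ^ r⌋ : ℤ) : ℝ) / (N : ℝ) ^ r * (n : ℝ) ^ (k : ℕ)|
      ≤ ∑ _k : Fin (r + 1), (1 : ℝ) := by
        refine Finset.sum_le_sum fun k _ => ?_
        rw [← sub_mul, abs_mul, abs_pow]
        have h1 : |P.coeff k - ((⌊P.coeff k * (N : ℝ) ^ r⌋ : ℤ) : ℝ) / (N : ℝ) ^ r| ≤
            1 / (N : ℝ) ^ r := by
          have h2 : P.coeff k - ((⌊P.coeff k * (N : ℝ) ^ r⌋ : ℤ) : ℝ) / (N : ℝ) ^ r =
              (P.coeff k * (N : ℝ) ^ r - ((⌊P.coeff k * (N : ℝ) ^ r⌋ : ℤ) : ℝ)) / (N : ℝ) ^ r := by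
            field_simp
          rw [h2, abs_div, abs_of_pos hN0]
          apply div_le_div_of_nonneg_right _ hN0.le
          have h3 := Int.floor_le (P.coeff k * (N : ℝ) ^ r)
          have h4 := Int.lt_floor_add_one (P.coeff k * (N : ℝ) ^ r)
          rw [abs_le]; constructor <;> linarith
        have h5 : |(n : ℝ)| ^ (k : ℕ) ≤ (N : ℝ) ^ r := by
          have h6 : |(n : ℝ)| ≤ N := by exact_mod_cast hn
          calc |(n : ℝ)| ^ (k : ℕ) ≤ (N : ℝ) ^ (k : ℕ) := pow_le_pow_left₀ (abs_nonneg _) h6 _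
            _ ≤ (N : ℝ) ^ r := pow_le_pow_right₀ (by exact_mod_cast hN) (by omega)
        calc |P.coeff k - ((⌊P.coeff k * (N : ℝ) ^ r⌋ : ℤ) : ℝ) / (N : ℝ) ^ r| *
              |(n : ℝ)| ^ (k : ℕ) ≤ 1 / (N : ℝ) ^ r * (N : ℝ) ^ r :=
              mul_le_mul h1 h5 (by positivity) (by positivity)
          _ = 1 := by field_simp
    _ = r + 1 := by
        rw [Finset.sum_const, Finset.card_univ, Fintype.card_fin, nsmul_eq_mul, mul_one]
        push_cast; ring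

/-- the rounded family has polynomial size -/
lemma size (B r e : ℕ) : ∀ᶠ N : ℕ in atTop,
    (((2 * (B * N ^ r + 1) + 1) ^ e : ℕ) : ℝ) ≤ Real.exp (√(N : ℝ)) := by
  have h1 : ∀ᶠ N : ℕ in atTop, ((r + 1) * e : ℕ) * Real.log N ≤ √(N : ℝ) := by
    have h2 := (isLittleO_log_rpow_atTop (show (0:ℝ) < 1 / 2 by norm_num)).bound
      (show (0:ℝ) < 1 / (((r + 1) * e : ℕ) + 1 : ℝ) by positivity)
    have h3 := tendsto_natCast_atTop_atTop (R := ℝ) |>.eventually h2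
    filter_upwards [h3] with N h4
    have h6 : (0:ℝ) ≤ Real.log N := Real.log_natCast_nonneg N
    simp only [Real.norm_eq_abs] at h4
    rw [abs_of_nonneg h6, abs_of_nonneg (by positivity), ← Real.sqrt_eq_rpow, div_mul_eq_mul_div,
      one_mul, le_div_iff₀ (by positivity)] at h4
    nlinarith
  filter_upwards [h1, eventually_ge_atTop (2 * B + 3)] with N h2 h3
  have hN1 : 1 ≤ N := by omega
  have hN0 : (0:ℝ) < N := by exact_mod_cast hN1
  have h4 : 2 * (B * N ^ r + 1) + 1 ≤ N ^ (r + 1) := by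
    have h5 : 1 ≤ N ^ r := Nat.one_le_pow _ _ hN1
    calc 2 * (B * N ^ r + 1) + 1 = 2 * B * N ^ r + 3 := by ring
      _ ≤ (2 * B + 3) * N ^ r := by nlinarith
      _ ≤ N * N ^ r := Nat.mul_le_mul_right _ h3
      _ = N ^ (r + 1) := by ring
  calc (((2 * (B * N ^ r + 1) + 1) ^ e : ℕ) : ℝ) ≤ (((N ^ (r + 1)) ^ e : ℕ) : ℝ) := by
        exact_mod_cast Nat.pow_le_pow_left h4 e
    _ = Real.exp (((r + 1) * e : ℕ) * Real.log N) := by
        rw [Real.exp_nat_mul, Real.exp_log hN0, ← pow_mul]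
        push_cast; rfl
    _ ≤ Real.exp (√(N : ℝ)) := Real.exp_le_exp.2 h2

/-- **Nets for the tubes.** -/
theorem net (j : Fin d) {w : ℕ → ℕ} (hw : Monotone w) (m r B : ℕ) :
    ∀ᶠ N : ℕ in atTop, ∃ 𝓖, Net j (m * (2 * (w N + r + 1) + 1) ^ (d - 1))
      (Real.exp (√(N : ℝ))) (Fam j w m r B) N 𝓖 := by
  classical
  filter_upwards [size B r (m * d * (r + 1)), eventually_ge_atTop 1] with N hsize hN1
  obtain ⟨F, hF⟩ : ∃ F : (Fin m → Fin d → Fin (r + 1) → ℤ) → Fin m → ℤ → Fin d → ℝ,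
      F = fun (z : Fin m → Fin d → Fin (r + 1) → ℤ) (l : Fin m) (n : ℤ) (i : Fin d) => ∑ k : Fin (r + 1), ((z l i k : ℤ) : ℝ) / (N : ℝ) ^ r *
        (n : ℝ) ^ (k : ℕ) := ⟨_, rfl⟩
  obtain ⟨G, hG⟩ : ∃ G : (Fin m → Fin d → Fin (r + 1) → ℤ) → Set (Fin d → ℤ),
      G = fun z => {x : Fin d → ℤ | ∃ l, ∀ i, i ≠ j → |(x i : ℝ) - F z l (x j) i| ≤
        ((w N + r + 1 : ℕ) : ℝ)} := ⟨_, rfl⟩
  obtain ⟨Z, hZ⟩ : ∃ Z : Finset (Fin m → Fin d → Fin (r + 1) → ℤ),
      Z = Fintype.piFinset fun _ => Fintype.piFinset fun _ => Fintype.piFinset fun _ =>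
        Finset.Icc (-((B * N ^ r + 1 : ℕ) : ℤ)) ((B * N ^ r + 1 : ℕ) : ℤ) := ⟨_, rfl⟩
  have hZc : Z.card = (2 * (B * N ^ r + 1) + 1) ^ (m * d * (r + 1)) := by
    rw [hZ]
    simp only [Fintype.card_piFinset, Int.card_Icc, Finset.prod_const, Finset.card_univ,
      Fintype.card_fin]
    rw [← pow_mul, ← pow_mul]
    congr 1
    · omega
    · ring
  refine ⟨Z.image G, ?_, ?_, ?_⟩
  · refine le_trans ?_ hsize
    have h1 : (Z.image G).card ≤ (2 * (B * N ^ r + 1) + 1) ^ (m * d * (r + 1)) := by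
      rw [← hZc]; exact Finset.card_image_le
    exact_mod_cast h1
  · intro S hS n _
    obtain ⟨z, -, rfl⟩ := Finset.mem_image.1 hS
    rw [hG]
    exact few j (w N + r + 1) m (F z) n
  · rintro S ⟨p, hp, rfl⟩
    refine ⟨G fun l i k => ⌊(p l i).coeff k * (N : ℝ) ^ r⌋, Finset.mem_image_of_mem _ ?_, ?_⟩
    · rw [hZ]
      simp only [Fintype.mem_piFinset, Finset.mem_Icc]
      intro l i k
      have h1 := abs_le.1 ((hp l i).2 k)
      have hN0 : (0:ℝ) ≤ (N : ℝ) ^ r := by positivity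
      constructor
      · rw [Int.le_floor]
        push_cast
        nlinarith
      · have h2 : (⌊(p l i).coeff k * (N : ℝ) ^ r⌋ : ℝ) ≤ (B : ℝ) * N ^ r + 1 := by
          have h3 := Int.floor_le ((p l i).coeff k * (N : ℝ) ^ r)
          nlinarith
        exact_mod_cast h2
    · rintro x ⟨l, hl⟩ hx
      rw [hG]
      refine ⟨l, fun i hi => ?_⟩
      have h1 := hl i hi
      have h2 := round hN1 (hp l i).1 hx
      have h0 : (x j).natAbs ≤ N := by
        have h := Int.natCast_natAbs (x j)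
        omega
      have h3 : w (x j).natAbs ≤ w N := hw h0
      have h4 : (w (x j).natAbs : ℝ) ≤ w N := by exact_mod_cast h3
      rw [hF]
      simp only
      push_cast
      calc |(x i : ℝ) - ∑ k : Fin (r + 1), ((⌊(p l i).coeff k * (N : ℝ) ^ r⌋ : ℤ) : ℝ) /
            (N : ℝ) ^ r * ((x j : ℤ) : ℝ) ^ (k : ℕ)|
          = |((x i : ℝ) - (p l i).eval (x j : ℝ)) + ((p l i).eval (x j : ℝ) -
            ∑ k : Fin (r + 1), ((⌊(p l i).coeff k * (N : ℝ) ^ r⌋ : ℤ) : ℝ) /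
            (N : ℝ) ^ r * ((x j : ℤ) : ℝ) ^ (k : ℕ))| := by congr 1; ring
        _ ≤ w N + (r + 1) := (abs_add_le _ _).trans (add_le_add (h1.trans h4) h2)
        _ = w N + r + 1 := by ring

lemma Net.mono_c {j : Fin d} {M : ℕ} {c c' : ℝ} (h : c ≤ c') {𝓕 : Set (Set (Fin d → ℤ))} {N : ℕ}
    {𝓖 : Finset (Set (Fin d → ℤ))} (hn : Net j M c 𝓕 N 𝓖) : Net j M c' 𝓕 N 𝓖 :=
  ⟨hn.1.trans h, hn.2⟩

lemma mem_Fam (j : Fin d) (w : ℕ → ℕ) {m : ℕ} (p : Fin m → Fin d → Polynomial ℝ) :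
    ∃ r B, Tub j w p ∈ Fam j w m r B := by
  classical
  obtain ⟨r, hr⟩ : ∃ r : ℕ, r = Finset.univ.sup fun li : Fin m × Fin d =>
      (p li.1 li.2).natDegree := ⟨_, rfl⟩
  obtain ⟨B, hB⟩ : ∃ B : ℕ, B = Finset.univ.sup fun lik : Fin m × Fin d × Fin (r + 1) =>
      ⌈|(p lik.1 lik.2.1).coeff lik.2.2|⌉₊ := ⟨_, rfl⟩
  refine ⟨r, B, p, fun l i => ?_, rfl⟩
  have h1 : (p l i).natDegree ≤ r := by
    rw [hr]
    exact Finset.le_sup (f := fun li : Fin m × Fin d => (p li.1 li.2).natDegree)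
      (Finset.mem_univ (l, i))
  refine ⟨h1, fun k => ?_⟩
  rcases Nat.lt_or_ge r k with h | h
  · rw [Polynomial.coeff_eq_zero_of_natDegree_lt (by omega)]
    simp
  · have h2 : ⌈|(p l i).coeff k|⌉₊ ≤ B := by
      rw [hB]
      exact Finset.le_sup (f := fun lik : Fin m × Fin d × Fin (r + 1) =>
        ⌈|(p lik.1 lik.2.1).coeff lik.2.2|⌉₊) (Finset.mem_univ (l, i, ⟨k, by omega⟩))
    exact (Nat.le_ceil _).trans (by exact_mod_cast h2)

end Pool.Agent.U47.EAT
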