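import Pool.Agent.U47.EAT.Det

/-!
# Edwards-Anderson ground states: rigid sets in thin sets
-/

set_option autoImplicit false

open MeasureTheory Filter Topology ProbabilityTheory

namespace Pool.Agent.U47.EAT

open Pool.Agent.R239.EA

variable {d : ℕ}

/-- the condition on one coupling -/
def Ae (a b : ℝ) (i : Fin d) (C : Finset (Fin d → ℤ)) (e : (Fin d → ℤ) × Fin d) : Set ℝ :=
  {x | (e.2 = i ∧ e.1 ∈ C → b ≤ |x|) ∧ (¬ (e.2 = i ∧ e.1 ∈ C) → |x| ≤ a)}

lemma Ae_eq1 {a b : ℝ} {i : Fin d} {C : Finset (Fin d → ℤ)} {e : (Fin d → ℤ) × Fin d}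
    (h : e.2 = i ∧ e.1 ∈ C) : Ae a b i C e = {x | b ≤ |x|} := by
  ext x
  unfold Ae
  simp only [Set.mem_ofPred_eq]
  tauto

lemma Ae_eq2 {a b : ℝ} {i : Fin d} {C : Finset (Fin d → ℤ)} {e : (Fin d → ℤ) × Fin d}
    (h : ¬ (e.2 = i ∧ e.1 ∈ C)) : Ae a b i C e = {x | |x| ≤ a} := by
  ext x
  unfold Ae
  simp only [Set.mem_ofPred_eq]
  tauto

lemma Ae_meas (a b : ℝ) (i : Fin d) (C : Finset (Fin d → ℤ)) (e : (Fin d → ℤ) × Fin d) :
    MeasurableSet (Ae a b i C e) := by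
  by_cases h : e.2 = i ∧ e.1 ∈ C
  · rw [Ae_eq1 h]
    exact measurableSet_le measurable_const (by fun_prop)
  · rw [Ae_eq2 h]
    exact measurableSet_le (by fun_prop) measurable_const

lemma Rig_pi (a b : ℝ) (i : Fin d) (C : Finset (Fin d → ℤ)) :
    {J : (Fin d → ℤ) × Fin d → ℝ | Rig a b i C J} = Set.pi (tch C) (Ae a b i C) := by
  ext J
  rfl

lemma Rig_meas (a b : ℝ) (i : Fin d) (C : Finset (Fin d → ℤ)) :
    MeasurableSet {J : (Fin d → ℤ) × Fin d → ℝ | Rig a b i C J} := by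
  rw [Rig_pi]
  exact MeasurableSet.pi (Finset.countable_toSet _) fun e _ => Ae_meas _ _ _ _ _

lemma Rig_dep (a b : ℝ) (i : Fin d) (C : Finset (Fin d → ℤ)) :
    Dep {J : (Fin d → ℤ) × Fin d → ℝ | ¬ Rig a b i C J} (tch C) := by
  intro J J' hJ h hR
  apply h
  intro e he
  rw [hJ e he]
  exact hR e he

variable (μ : Measure ℝ) [IsProbabilityMeasure μ]

theorem Rig_prob {a b : ℝ} {i : Fin d} {C : Finset (Fin d → ℤ)} {M : ℕ} {q : ENNReal}
    (hq1 : q ≤ 1) (ha : q ≤ μ {x | |x| ≤ a}) (hb : q ≤ μ {x | b ≤ |x|}) (hM : C.card ≤ M) :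
    q ^ (2 * d * M) ≤ Lw μ d {J | Rig a b i C J} := by
  rw [Rig_pi]
  unfold Lw
  rw [Measure.infinitePi_pi (μ := fun _ : (Fin d → ℤ) × Fin d => μ)
    (fun e _ => Ae_meas a b i C e)]
  calc q ^ (2 * d * M) ≤ q ^ (tch C).card :=
        pow_le_pow_right_of_le_one' hq1 ((card_tch C).trans (Nat.mul_le_mul_left _ hM))
    _ = ∏ e ∈ tch C, q := by rw [Finset.prod_const]
    _ ≤ ∏ e ∈ tch C, μ (Ae a b i C e) := by
        refine Finset.prod_le_prod' fun e _ => ?_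
        by_cases h : e.2 = i ∧ e.1 ∈ C
        · rw [Ae_eq1 h]; exact hb
        · rw [Ae_eq2 h]; exact ha

theorem none_prob {a b : ℝ} {i : Fin d} {κ : ENNReal} (C : ℕ → Finset (Fin d → ℤ))
    (I : Finset ℕ)
    (hdis : ∀ m ∈ I, ∀ m' ∈ I, m ≠ m' → Disjoint (tch (C m)) (tch (C m')))
    (hk : ∀ m ∈ I, κ ≤ Lw μ d {J | Rig a b i (C m) J}) :
    Lw μ d {J | ∀ m ∈ I, ¬ Rig a b i (C m) J} ≤ (1 - κ) ^ I.card := by
  classical
  induction I using Finset.induction_on with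
  | empty => simp
  | insert m I hm ih =>
    have h1 : {J : (Fin d → ℤ) × Fin d → ℝ | ∀ m' ∈ insert m I, ¬ Rig a b i (C m') J} =
        {J | ¬ Rig a b i (C m) J} ∩ {J | ∀ m' ∈ I, ¬ Rig a b i (C m') J} := by
      ext J; simp
    have hmeas : MeasurableSet {J : (Fin d → ℤ) × Fin d → ℝ | ∀ m' ∈ I, ¬ Rig a b i (C m') J} := by
      have : {J : (Fin d → ℤ) × Fin d → ℝ | ∀ m' ∈ I, ¬ Rig a b i (C m') J} =
          ⋂ m' ∈ I, {J | Rig a b i (C m') J}ᶜ := by
        ext J; simp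
      rw [this]
      exact Finset.measurableSet_biInter _ fun m' _ => (Rig_meas a b i (C m')).compl
    have hmc : MeasurableSet {J : (Fin d → ℤ) × Fin d → ℝ | ¬ Rig a b i (C m) J} :=
      (Rig_meas a b i (C m)).compl
    rw [h1, indep_events μ (S := tch (C m)) (T := I.biUnion fun m' => tch (C m')) ?_
      hmc hmeas (Rig_dep a b i (C m)) ?_, Finset.card_insert_of_notMem hm,
      pow_succ, mul_comm]
    · refine mul_le_mul' (ih (fun k hk' k' hk'' => hdis k (Finset.mem_insert_of_mem hk') k'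
        (Finset.mem_insert_of_mem hk'')) fun k hk' => hk k (Finset.mem_insert_of_mem hk')) ?_
      rw [show {J : (Fin d → ℤ) × Fin d → ℝ | ¬ Rig a b i (C m) J} =
        {J | Rig a b i (C m) J}ᶜ from rfl, prob_compl_eq_one_sub (Rig_meas a b i (C m))]
      exact tsub_le_tsub_left (hk m (Finset.mem_insert_self _ _)) _
    · rw [Finset.disjoint_biUnion_right]
      intro m' hm'
      exact hdis m (Finset.mem_insert_self _ _) m' (Finset.mem_insert_of_mem hm')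
        fun h => hm (h ▸ hm')
    · intro J J' hJ h m' hm' hR
      exact Rig_dep a b i (C m') J J' (fun e he => hJ e (Finset.mem_biUnion.2 ⟨m', hm', he⟩))
        (h m' hm') hR

lemma tch_disj {j : Fin d} {C C' : Finset (Fin d → ℤ)} {n n' : ℤ} (hC : ∀ x ∈ C, x j = n)
    (hC' : ∀ x ∈ C', x j = n') (h : 2 ≤ |n - n'|) : Disjoint (tch C) (tch C') := by
  rw [Finset.disjoint_left]
  intro e he he'
  rw [mem_tch] at he he'
  have hstep : nx e j - e.1 j = 0 ∨ nx e j - e.1 j = 1 := by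
    unfold nx
    simp only [Pi.add_apply, add_sub_cancel_left]
    by_cases h : j = e.2
    · right; rw [h, u_same]
    · left; rw [u_ne h]
  have h1 : e.1 j = n ∨ e.1 j = n - 1 := by
    rcases he with h | h
    · exact Or.inl (hC _ h)
    · have := hC _ h; omega
  have h2 : e.1 j = n' ∨ e.1 j = n' - 1 := by
    rcases he' with h | h
    · exact Or.inl (hC' _ h)
    · have := hC' _ h; omega
  have h3 : |n - n'| ≤ 1 := by
    rw [abs_le]; omega
  omega

open Classical in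
/-- the points of `G` at height `n`, if there are only finitely many -/
noncomputable def slc (G : Set (Fin d → ℤ)) (j : Fin d) (n : ℤ) : Finset (Fin d → ℤ) :=
  if h : {x | x ∈ G ∧ x j = n}.Finite then h.toFinset else ∅

lemma slc_height {G : Set (Fin d → ℤ)} {j : Fin d} {n : ℤ} : ∀ x ∈ slc G j n, x j = n := by
  intro x hx
  unfold slc at hx
  split_ifs at hx with h
  · rw [h.mem_toFinset] at hx
    exact hx.2
  · simp at hx

lemma slc_fin {G : Set (Fin d → ℤ)} {j : Fin d} {n : ℤ} {M : ℕ}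
    (h : {x | x ∈ G ∧ x j = n}.encard ≤ M) : {x | x ∈ G ∧ x j = n}.Finite := by
  rw [← Set.encard_lt_top_iff]
  exact h.trans_lt (ENat.natCast_lt_top M)

lemma mem_slc {G : Set (Fin d → ℤ)} {j : Fin d} {n : ℤ} {M : ℕ}
    (h : {x | x ∈ G ∧ x j = n}.encard ≤ M) {x : Fin d → ℤ} :
    x ∈ slc G j n ↔ x ∈ G ∧ x j = n := by
  unfold slc
  rw [dif_pos (slc_fin h), (slc_fin h).mem_toFinset]
  rfl

lemma slc_card {G : Set (Fin d → ℤ)} {j : Fin d} {n : ℤ} {M : ℕ}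
    (h : {x | x ∈ G ∧ x j = n}.encard ≤ M) : (slc G j n).card ≤ M := by
  have h1 := slc_fin h
  unfold slc
  rw [dif_pos h1]
  rw [h1.encard_eq_coe_toFinset_card] at h
  exact_mod_cast h

/-- the family is covered, up to height `N`, by at most `c` sets with at most `M` points in each
hyperplane -/
def Net (j : Fin d) (M : ℕ) (c : ℝ) (𝓕 : Set (Set (Fin d → ℤ))) (N : ℕ)
    (𝓖 : Finset (Set (Fin d → ℤ))) : Prop :=
  (𝓖.card : ℝ) ≤ c ∧
  (∀ G ∈ 𝓖, ∀ n : ℤ, |n| ≤ N → {x | x ∈ G ∧ x j = n}.encard ≤ M) ∧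
  ∀ S ∈ 𝓕, ∃ G ∈ 𝓖, ∀ x ∈ S, |x j| ≤ N → x ∈ G

lemma one_sub_pow_le {κ : ENNReal} (hκ : κ ≠ ⊤) (k : ℕ) :
    (1 - κ) ^ k ≤ ENNReal.ofReal (Real.exp (-(κ.toReal * k))) := by
  have h1 : 1 - κ ≤ ENNReal.ofReal (Real.exp (-κ.toReal)) := by
    calc 1 - κ = 1 - ENNReal.ofReal κ.toReal := by rw [ENNReal.ofReal_toReal hκ]
      _ = ENNReal.ofReal (1 - κ.toReal) := by
          rw [ENNReal.ofReal_sub _ ENNReal.toReal_nonneg, ENNReal.ofReal_one]
      _ ≤ ENNReal.ofReal (Real.exp (-κ.toReal)) := by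
          apply ENNReal.ofReal_le_ofReal
          have := Real.add_one_le_exp (-κ.toReal)
          linarith
  calc (1 - κ) ^ k ≤ (ENNReal.ofReal (Real.exp (-κ.toReal))) ^ k := pow_le_pow_left' h1 k
    _ = ENNReal.ofReal (Real.exp (-(κ.toReal * k))) := by
        rw [← ENNReal.ofReal_pow (Real.exp_pos _).le, ← Real.exp_nat_mul]
        congr 2; ring

/-- **Thin sets.** -/
theorem thinG {i j : Fin d} (hij : i ≠ j) (M : ℕ → ℕ) (a b k : ℕ → ℝ) (ha0 : ∀ N, 0 ≤ a N)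
    (hab : ∀ N, 2 * d * M N * a N < b N) (hk0 : ∀ N, 0 < k N)
    (hk : ∀ N, ENNReal.ofReal (k N) ≤
      (min (μ {x | |x| ≤ a N}) (μ {x | b N ≤ |x|})) ^ (2 * d * M N))
    (𝓕 : Set (Set (Fin d → ℤ)))
    (hF : ∃ᶠ N : ℕ in atTop, 16 * Real.log N ≤ k N * N ∧
      ∃ 𝓖, Net j (M N) (Real.exp (k N * N / 8)) 𝓕 N 𝓖) :
    ∀ᵐ J ∂(Lw μ d), ∀ S ∈ 𝓕, ∀ σ τ : (Fin d → ℤ) → ℝ, GA J σ → GA J τ →
      (∀ x, σ x ≠ τ x → x ∈ S) → σ = τ := by
  classical
  have hq1 : ∀ N, min (μ {x | |x| ≤ a N}) (μ {x | b N ≤ |x|}) ≤ 1 :=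
    fun N => (min_le_left _ _).trans prob_le_one
  have hk1 : ∀ N, k N ≤ 1 := by
    intro N
    have h1 : ENNReal.ofReal (k N) ≤ 1 := (hk N).trans (pow_le_one' (hq1 N) _)
    rwa [ENNReal.ofReal_le_one] at h1
  obtain ⟨P, hP⟩ : ∃ P : ℕ → Prop, P = fun N : ℕ => 16 * Real.log N ≤ k N * N ∧
    ∃ 𝓖, Net j (M N) (Real.exp (k N * N / 8)) 𝓕 N 𝓖 := ⟨_, rfl⟩
  have hch : ∃ 𝓖 : ℕ → Finset (Set (Fin d → ℤ)), ∀ N, P N →
      Net j (M N) (Real.exp (k N * N / 8)) 𝓕 N (𝓖 N) := by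
    refine ⟨fun N => if h : ∃ 𝓖, Net j (M N) (Real.exp (k N * N / 8)) 𝓕 N 𝓖 then h.choose
      else ∅, fun N hN => ?_⟩
    rw [hP] at hN
    simp only
    rw [dif_pos hN.2]
    exact hN.2.choose_spec
  obtain ⟨𝓖, h𝓖⟩ := hch
  -- the bad events
  obtain ⟨I, hI⟩ : ∃ I : ℕ → Finset ℕ, I = fun N => Finset.Ioc (N / 4) (N / 2) := ⟨_, rfl⟩
  obtain ⟨E, hE⟩ : ∃ E : ℤ → Set (Fin d → ℤ) → ℕ → Set ((Fin d → ℤ) × Fin d → ℝ),
      E = fun s G N => {J | ∀ m ∈ I N, ¬ Rig (a N) (b N) i (slc G j (s * (2 * m))) J} := ⟨_, rfl⟩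
  obtain ⟨B, hB⟩ : ∃ B : ℕ → Set ((Fin d → ℤ) × Fin d → ℝ),
      B = fun N => {J | P N ∧ ∃ G ∈ 𝓖 N, J ∈ E 1 G N ∨ J ∈ E (-1) G N} := ⟨_, rfl⟩
  have hEp : ∀ N, P N → ∀ G ∈ 𝓖 N, ∀ s : ℤ, |s| = 1 →
      Lw μ d (E s G N) ≤ ENNReal.ofReal (Real.exp (-(k N * ((N / 4 : ℕ) : ℝ)))) := by
    intro N hN G hG s hs
    obtain ⟨-, h2, -⟩ := h𝓖 N hN
    have hcardI : N / 4 ≤ (I N).card := by
      rw [hI]; simp only [Nat.card_Ioc]; omega
    have h3 : Lw μ d (E s G N) ≤ (1 - ENNReal.ofReal (k N)) ^ (I N).card := by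
      rw [hE]
      refine none_prob μ (fun m => slc G j (s * (2 * (m : ℤ)))) (I N) ?_ ?_
      · intro m hm m' hm' hne
        refine tch_disj slc_height slc_height ?_
        have h4 : s * (2 * (m : ℤ)) - s * (2 * (m' : ℤ)) = s * (2 * ((m : ℤ) - m')) := by ring
        rw [h4, abs_mul, hs, one_mul, abs_mul]
        have h5 : 1 ≤ |(m : ℤ) - m'| := by
          apply Int.one_le_abs
          intro h6
          apply hne
          omega
        simp only [abs_two]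
        omega
      · intro m hm
        refine (hk N).trans (Rig_prob μ (hq1 N) (min_le_left _ _) (min_le_right _ _)
          (slc_card (h2 G hG _ ?_)))
        rw [abs_mul, hs, one_mul]
        rw [hI, Finset.mem_Ioc] at hm
        rw [abs_of_nonneg (by positivity)]
        have := hm.2
        omega
    refine h3.trans ((one_sub_pow_le ENNReal.ofReal_ne_top _).trans (ENNReal.ofReal_le_ofReal ?_))
    rw [ENNReal.toReal_ofReal (hk0 N).le]
    apply Real.exp_le_exp.2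
    have h6 : ((N / 4 : ℕ) : ℝ) ≤ ((I N).card : ℝ) := by exact_mod_cast hcardI
    have h7 := mul_le_mul_of_nonneg_left h6 (hk0 N).le
    linarith
  have hBp : ∀ N, Lw μ d (B N) ≤ ENNReal.ofReal (2 * Real.exp 1 * (1 / (N : ℝ) ^ 2)) ∨ N = 0 := by
    intro N
    rcases Nat.eq_zero_or_pos N with h0N | h0N
    · exact Or.inr h0N
    left
    have hN0 : (0:ℝ) < N := by exact_mod_cast h0N
    by_cases hN : P N
    · obtain ⟨h1, -, -⟩ := h𝓖 N hN
      have hlog : 16 * Real.log N ≤ k N * N := by rw [hP] at hN; exact hN.1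
      have hsub : B N ⊆ ⋃ G ∈ 𝓖 N, (E 1 G N ∪ E (-1) G N) := by
        intro J hJ
        rw [hB] at hJ
        obtain ⟨-, G, hG, h⟩ := hJ
        simp only [Set.mem_iUnion]
        exact ⟨G, hG, h⟩
      calc Lw μ d (B N) ≤ Lw μ d (⋃ G ∈ 𝓖 N, (E 1 G N ∪ E (-1) G N)) := measure_mono hsub
        _ ≤ ∑ G ∈ 𝓖 N, Lw μ d (E 1 G N ∪ E (-1) G N) := measure_biUnion_finset_le _ _
        _ ≤ ∑ G ∈ 𝓖 N, ENNReal.ofReal (2 * Real.exp (-(k N * ((N / 4 : ℕ) : ℝ)))) := by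
            refine Finset.sum_le_sum fun G hG => ?_
            refine (measure_union_le _ _).trans ?_
            refine (add_le_add (hEp N hN G hG 1 (by simp)) (hEp N hN G hG (-1) (by simp))).trans ?_
            rw [← ENNReal.ofReal_add (Real.exp_pos _).le (Real.exp_pos _).le, two_mul]
        _ = ENNReal.ofReal ((𝓖 N).card * (2 * Real.exp (-(k N * ((N / 4 : ℕ) : ℝ))))) := by
            rw [Finset.sum_const, nsmul_eq_mul, ENNReal.ofReal_mul (Nat.cast_nonneg _),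
              ENNReal.ofReal_natCast]
        _ ≤ ENNReal.ofReal (2 * Real.exp 1 * (1 / (N : ℝ) ^ 2)) := by
            apply ENNReal.ofReal_le_ofReal
            have h4 : ((N / 4 : ℕ) : ℝ) ≥ N / 4 - 1 := by
              have h5 : N ≤ 4 * (N / 4) + 3 := by omega
              have h6 : (N : ℝ) ≤ 4 * ((N / 4 : ℕ) : ℝ) + 3 := by exact_mod_cast h5
              linarith
            have h7 : Real.exp (-(k N * ((N / 4 : ℕ) : ℝ))) ≤ Real.exp (1 - k N * N / 4) := by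
              apply Real.exp_le_exp.2
              have h8 := mul_le_mul_of_nonneg_left h4 (hk0 N).le
              have := hk1 N
              nlinarith
            have h9 : Real.exp (-(k N * N / 8)) ≤ 1 / (N : ℝ) ^ 2 := by
              have h10 : Real.exp (-(k N * N / 8)) ≤ Real.exp (-(2 * Real.log N)) := by
                apply Real.exp_le_exp.2; linarith
              refine h10.trans (le_of_eq ?_)
              rw [Real.exp_neg, one_div, show 2 * Real.log N = Real.log N * (2:ℕ) by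
                push_cast; ring, mul_comm, Real.exp_nat_mul, Real.exp_log hN0]
            calc ((𝓖 N).card : ℝ) * (2 * Real.exp (-(k N * ((N / 4 : ℕ) : ℝ))))
                ≤ Real.exp (k N * N / 8) * (2 * Real.exp (1 - k N * N / 4)) := by
                  gcongr
              _ = 2 * Real.exp 1 * Real.exp (-(k N * N / 8)) := by
                  rw [mul_left_comm, ← Real.exp_add, mul_assoc, ← Real.exp_add]
                  congr 2; ring
              _ ≤ 2 * Real.exp 1 * (1 / (N : ℝ) ^ 2) := by gcongr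
    · have h0 : B N = ∅ := by
        rw [hB]
        ext J
        simp only [Set.mem_ofPred_eq, Set.mem_empty_iff_false, iff_false]
        exact fun h => hN h.1
      rw [h0, measure_empty]
      exact zero_le
  have hsum : ∑' N, Lw μ d (B (N + 1)) ≠ ⊤ := by
    have hs : Summable fun N : ℕ => 2 * Real.exp 1 * (1 / ((N + 1 : ℕ) : ℝ) ^ 2) := by
      refine Summable.mul_left _ ?_
      exact (summable_nat_add_iff 1).2 (Real.summable_one_div_nat_pow.2 (by norm_num))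
    refine ne_top_of_le_ne_top hs.tsum_ofReal_ne_top (ENNReal.tsum_le_tsum fun N => ?_)
    rcases hBp (N + 1) with h | h
    · exact h
    · omega
  filter_upwards [ae_eventually_notMem hsum] with J hJ'
  have hJ : ∀ᶠ N in atTop, J ∉ B N := by
    obtain ⟨n0, hn0⟩ := eventually_atTop.1 hJ'
    refine eventually_atTop.2 ⟨n0 + 1, fun N hN => ?_⟩
    have := hn0 (N - 1) (by omega)
    rwa [Nat.sub_add_cancel (by omega)] at this
  intro S hS σ τ hσ hτ hD
  funext x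
  by_contra hne
  obtain ⟨N, hPN, hJN, hNx⟩ : ∃ N, P N ∧ J ∉ B N ∧ 4 * (x j).natAbs + 8 ≤ N := by
    have h1 : ∃ᶠ N : ℕ in atTop, P N := by rw [hP]; exact hF
    obtain ⟨N, h2, h3, h4⟩ := (h1.and_eventually (hJ.and (eventually_ge_atTop
      (4 * (x j).natAbs + 8)))).exists
    exact ⟨N, h2, h3, h4⟩
  obtain ⟨-, hfin, hcov⟩ := h𝓖 N hPN
  obtain ⟨G, hG, hSG⟩ := hcov S hS
  have hclean : ∀ s : ℤ, |s| = 1 → J ∉ E s G N →
      ∃ m : ℕ, m ∈ I N ∧ ∀ y, y j = s * (2 * m) → σ y = τ y := by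
    intro s hs hJE
    rw [hE] at hJE
    simp only [Set.mem_ofPred_eq] at hJE
    push Not at hJE
    obtain ⟨m, hm, hR⟩ := hJE
    have hmN : |s * (2 * (m : ℤ))| ≤ N := by
      rw [abs_mul, hs, one_mul]
      rw [hI, Finset.mem_Ioc] at hm
      rw [abs_of_nonneg (by positivity)]
      have := hm.2
      omega
    refine ⟨m, hm, agree (ha0 N) hij (slc_card (hfin G hG _ hmN)) (hab N) hR hσ hτ
      fun y hy hyC => ?_⟩
    by_contra hyne
    apply hyC
    rw [mem_slc (hfin G hG _ hmN)]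
    exact ⟨hSG y (hD y hyne) (by rw [hy]; exact hmN), hy⟩
  have hnot : J ∉ E 1 G N ∧ J ∉ E (-1) G N := by
    constructor
    · intro h
      apply hJN
      rw [hB]
      exact ⟨hPN, G, hG, Or.inl h⟩
    · intro h
      apply hJN
      rw [hB]
      exact ⟨hPN, G, hG, Or.inr h⟩
  obtain ⟨m, hm, hc⟩ := hclean 1 (by simp) hnot.1
  obtain ⟨m', hm', hc'⟩ := hclean (-1) (by simp) hnot.2
  rw [hI, Finset.mem_Ioc] at hm hm'
  refine hne (between hσ hτ (j := j) (p := -1 * (2 * m')) (q := 1 * (2 * m)) hc' hc ?_ x ?_ ?_)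
  · refine Set.Finite.subset (s := ⋃ n ∈ Finset.Icc (-(N : ℤ)) N, {y | y ∈ G ∧ y j = n}) ?_ ?_
    · refine Set.Finite.biUnion (Finset.finite_toSet _) fun n hn => ?_
      rw [Finset.mem_coe, Finset.mem_Icc] at hn
      exact slc_fin (hfin G hG n (abs_le.2 hn))
    · rintro y ⟨h1, h2, h3⟩
      have h4 : |y j| ≤ N := by rw [abs_le]; omega
      simp only [Set.mem_iUnion, Finset.mem_Icc]
      exact ⟨y j, abs_le.1 h4, hSG y (hD y h3) h4, rfl⟩
  · omega
  · omega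

/-- **Thin sets, fixed strengths.** -/
theorem thin {a b : ℝ} (ha0 : 0 ≤ a) {i j : Fin d} (hij : i ≠ j) {M : ℕ}
    (hab : 2 * d * M * a < b) (ha : μ {x | |x| ≤ a} ≠ 0) (hb : μ {x | b ≤ |x|} ≠ 0) :
    ∃ ε : ℝ, 0 < ε ∧ ∀ 𝓕 : Set (Set (Fin d → ℤ)),
      (∃ᶠ N : ℕ in atTop, ∃ 𝓖, Net j M (Real.exp (ε * N)) 𝓕 N 𝓖) →
      ∀ᵐ J ∂(Lw μ d), ∀ S ∈ 𝓕, ∀ σ τ : (Fin d → ℤ) → ℝ, GA J σ → GA J τ →
        (∀ x, σ x ≠ τ x → x ∈ S) → σ = τ := by
  obtain ⟨q, hq⟩ : ∃ q : ENNReal, q = min (μ {x | |x| ≤ a}) (μ {x | b ≤ |x|}) := ⟨_, rfl⟩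
  have hq1 : q ≤ 1 := by rw [hq]; exact (min_le_left _ _).trans prob_le_one
  have hq0 : q ≠ 0 := by
    rw [hq]
    intro h
    rcases min_eq_bot.1 h with h | h
    · exact ha h
    · exact hb h
  obtain ⟨κ, hκ⟩ : ∃ κ : ENNReal, κ = q ^ (2 * d * M) := ⟨_, rfl⟩
  have hκ0 : κ ≠ 0 := by rw [hκ]; exact pow_ne_zero _ hq0
  have hκt : κ ≠ ⊤ := by
    rw [hκ]; exact (lt_of_le_of_lt (pow_le_one' hq1 _) ENNReal.one_lt_top).ne
  obtain ⟨k, hk⟩ : ∃ k : ℝ, k = κ.toReal := ⟨_, rfl⟩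
  have hk0 : 0 < k := by rw [hk]; exact ENNReal.toReal_pos hκ0 hκt
  refine ⟨k / 8, by positivity, fun 𝓕 hF => ?_⟩
  refine thinG μ hij (fun _ => M) (fun _ => a) (fun _ => b) (fun _ => k) (fun _ => ha0)
    (fun _ => hab) (fun _ => hk0) (fun _ => ?_) 𝓕 ?_
  · rw [hk, ENNReal.ofReal_toReal hκt, hκ, hq]
  · have h1 : ∀ᶠ N : ℕ in atTop, 16 * Real.log N ≤ k * N := by
      have h2 := (Real.isLittleO_log_id_atTop.bound (show (0:ℝ) < k / 16 by positivity))
      have h3 := tendsto_natCast_atTop_atTop (R := ℝ) |>.eventually h2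
      filter_upwards [h3, eventually_ge_atTop 1] with N h4 h5
      have h6 : (0:ℝ) ≤ Real.log N := Real.log_natCast_nonneg N
      simp only [id, Real.norm_eq_abs] at h4
      rw [abs_of_nonneg h6, abs_of_nonneg (Nat.cast_nonneg N)] at h4
      linarith
    refine (hF.and_eventually h1).mono fun N hN => ⟨hN.2, ?_⟩
    obtain ⟨𝓖, h𝓖⟩ := hN.1
    refine ⟨𝓖, ?_⟩
    rwa [show k * N / 8 = k / 8 * N by ring]

end Pool.Agent.U47.EAT
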