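import Pool.Agent.U47.EAT.Wall

/-!
# Interfaces near graphs
-/

set_option autoImplicit false

open MeasureTheory Filter Topology

namespace Pool.Agent.U47.EAT

open Pool.Agent.R239.EA

variable {d : ℕ}

lemma zs {P : (Fin d → ℤ) → Prop} {k : Fin d} (h : ∀ x, P x ↔ P (x + u k)) (z : ℤ) :
    ∀ x, P x ↔ P (x + z • u k) := by
  induction z using Int.induction_on with
  | zero => intro x; simp
  | succ z ih =>
    intro x
    have h1 : x + ((z : ℤ) + 1) • u k = x + (z : ℤ) • u k + u k := by module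
    rw [h1, ← h]
    exact ih x
  | pred z ih =>
    intro x
    have h1 : x + (-(z : ℤ)) • u k = x + (-(z : ℤ) - 1) • u k + u k := by module
    rw [ih x, h1, ← h]

lemma connAll (j : Fin d) {P : (Fin d → ℤ) → Prop} (h : ∀ x k, P x ↔ P (x + u k)) :
    ∀ x y, P x ↔ P y := by
  intro x y
  rw [zs (fun x => h x j) (y j - x j) x]
  refine conn (j := j) (n := y j) (fun x k _ _ => h x k) _ _ ?_ rfl
  simp only [Pi.add_apply, Pi.smul_apply, u_same, smul_eq_mul, mul_one]
  ring

/-- one side of a graph which contains the wall -/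
theorem side {D : Set (Fin d → ℤ)} {i : Fin d} {F : (Fin d → ℤ) → ℝ} {r : ℝ}
    (hF : ∀ (x : Fin d → ℤ) (z : ℤ), F (x + z • u i) = F x)
    (hW : ∀ e ∈ dC D, |(e.1 i : ℝ) - F e.1| ≤ r ∨ |(nx e i : ℝ) - F (nx e)| ≤ r)
    {s : ℤ} (hs : s = 1 ∨ s = -1) :
    ∀ x y : Fin d → ℤ, r < s * ((x i : ℝ) - F x) → r < s * ((y i : ℝ) - F y) →
      (x ∈ D ↔ y ∈ D) := by
  have habs : ∀ x : Fin d → ℤ, r < s * ((x i : ℝ) - F x) → ¬ |(x i : ℝ) - F x| ≤ r := by
    intro x hx hc
    have h1 := abs_le.1 hc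
    rcases hs with h | h <;> rw [h] at hx <;> push_cast at hx <;> linarith
  have hss : (s : ℝ) * s = 1 := by rcases hs with h | h <;> rw [h] <;> norm_num
  have hup : ∀ (x : Fin d → ℤ) (t : ℕ), (s : ℝ) * (((x + (s * t) • u i) i : ℤ) - F (x + (s * t) • u i)) =
      s * ((x i : ℝ) - F x) + t := by
    intro x t
    rw [hF]
    simp only [Pi.add_apply, Pi.smul_apply, u_same, smul_eq_mul, mul_one]
    push_cast
    linear_combination (t : ℝ) * hss
  -- the bonds above
  have hbond : ∀ (x : Fin d → ℤ) (k : Fin d), r < s * ((x i : ℝ) - F x) →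
      r < s * (((x + u k) i : ℤ) - F (x + u k)) → (x ∈ D ↔ x + u k ∈ D) := by
    intro x k h1 h2
    by_contra hc
    have he : ((x, k) : (Fin d → ℤ) × Fin d) ∈ dC D := hc
    rcases hW _ he with h | h
    · exact habs x h1 h
    · exact habs (x + u k) h2 h
  obtain ⟨A, hA⟩ : ∃ A : (Fin d → ℤ) → Prop,
      A = fun x => ∀ᶠ t : ℕ in atTop, x + (s * (t : ℤ)) • u i ∈ D := ⟨_, rfl⟩
  have hAk : ∀ x k, A x ↔ A (x + u k) := by
    intro x k
    rw [hA]
    apply Filter.eventually_congr
    have e1 : ∀ᶠ t : ℕ in atTop, r - s * ((x i : ℝ) - F x) < (t : ℝ) :=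
      tendsto_natCast_atTop_atTop.eventually_gt_atTop _
    have e2 : ∀ᶠ t : ℕ in atTop, r - s * (((x + u k) i : ℤ) - F (x + u k)) < (t : ℝ) :=
      tendsto_natCast_atTop_atTop.eventually_gt_atTop _
    filter_upwards [e1, e2] with t h1 h2
    have h3 : x + u k + (s * (t : ℤ)) • u i = x + (s * (t : ℤ)) • u i + u k := by abel
    rw [h3]
    refine hbond _ k ?_ ?_
    · rw [hup]; linarith
    · rw [← h3, hup]; linarith
  have hD : ∀ x : Fin d → ℤ, r < s * ((x i : ℝ) - F x) → (x ∈ D ↔ A x) := by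
    intro x hx
    have h1 : ∀ t : ℕ, (x ∈ D ↔ x + (s * (t : ℤ)) • u i ∈ D) := by
      intro t
      induction t with
      | zero => simp
      | succ t ih =>
        rw [ih]
        have h2 : r < s * (((x + (s * (t : ℤ)) • u i) i : ℤ) - F (x + (s * (t : ℤ)) • u i)) := by
          rw [hup]
          have : (0:ℝ) ≤ t := Nat.cast_nonneg t
          linarith
        have h3 : r < s * (((x + (s * ((t + 1 : ℕ) : ℤ)) • u i) i : ℤ) -
            F (x + (s * ((t + 1 : ℕ) : ℤ)) • u i)) := by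
          rw [hup]
          have : (0:ℝ) ≤ ((t + 1 : ℕ) : ℝ) := Nat.cast_nonneg _
          linarith
        rcases hs with h | h
        · have h4 : x + (s * ((t + 1 : ℕ) : ℤ)) • u i = x + (s * (t : ℤ)) • u i + u i := by
            rw [h]; push_cast; module
          rw [h4] at h3 ⊢
          exact hbond _ i h2 h3
        · have h4 : x + (s * (t : ℤ)) • u i = x + (s * ((t + 1 : ℕ) : ℤ)) • u i + u i := by
            rw [h]; push_cast; module
          rw [h4] at h2 ⊢
          exact (hbond _ i h3 h2).symm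
    rw [hA]
    simp only [← h1]
    exact Filter.eventually_const.symm
  intro x y hx hy
  rw [hD x hx, hD y hy]
  exact connAll i hAk x y

end Pool.Agent.U47.EAT
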