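import Pool.Agent.U47.EAT.WProb
import Pool.Agent.U47.EAT.Growth

/-!
# Walls in sets of growing sizes, for laws with a power of mass near zero
-/

set_option autoImplicit false

open MeasureTheory Filter Topology

namespace Pool.Agent.U47.EAT

open Pool.Agent.R239.EA

variable {d : ℕ}

variable (μ : Measure ℝ) [IsProbabilityMeasure μ]

/-- **Walls in thin sets, growing sizes.** -/
theorem wgrowth {c α β : ℝ} (hc : 0 < c) (hα : 0 ≤ α)
    (hμ : ∀ t : ℝ, 0 < t → t ≤ 1 → ENNReal.ofReal (c * t ^ α) ≤ μ {x | |x| ≤ t})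
    (hβ0 : 0 < β) (hβ1 : β ≤ 1) (hβ : μ {x | β ≤ |x|} ≠ 0) {i j : Fin d} (hij : i ≠ j)
    (M M' : ℕ → ℕ) (hM' : ∀ N, 2 * M N ≤ M' N)
    (hM : Tendsto (fun N : ℕ => (M' N : ℝ) * Real.log (Real.log N) / Real.log N) atTop (𝓝 0))
    (𝓕 : Set (Set (Fin d → ℤ)))
    (hF : ∃ᶠ N : ℕ in atTop, ∃ 𝓖, Net j (M N) (Real.exp (√(N : ℝ))) 𝓕 N 𝓖) :
    ∀ᵐ J ∂(Lw μ d), ∀ S ∈ 𝓕, ∀ σ τ : (Fin d → ℤ) → ℝ, GA J σ → GA J τ →
      WallIn σ τ S → σ = τ ∨ σ = -τ := by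
  obtain ⟨qb, hqb⟩ : ∃ qb : ℝ, qb = (μ {x | β ≤ |x|}).toReal := ⟨_, rfl⟩
  have hqb0 : 0 < qb := by rw [hqb]; exact ENNReal.toReal_pos hβ (measure_ne_top _ _)
  obtain ⟨c1, hc1⟩ : ∃ c1 : ℝ, c1 = min (c * β ^ α) qb := ⟨_, rfl⟩
  have hc10 : 0 < c1 := by rw [hc1]; exact lt_min (by positivity) hqb0
  have hK0 : ∀ N, (1:ℝ) ≤ 2 * d * M' N + 1 := by
    intro N
    have : (0:ℝ) ≤ 2 * d * M' N := by positivity
    linarith
  refine wallG μ hij M M' hM' (fun N => β / (2 * d * M' N + 1)) (fun _ => β)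
    (fun N => (c1 * (2 * d * M' N + 1 : ℝ) ^ (-α)) ^ (2 * d * M' N)) (fun N => ?_) (fun N => ?_)
    (fun N => ?_) (fun N => ?_) 𝓕 ?_
  · have := hK0 N
    positivity
  · have h1 := hK0 N
    rw [mul_div_assoc', div_lt_iff₀ (by linarith)]
    nlinarith
  · have := hK0 N
    positivity
  · have h1 := hK0 N
    have hp : (0:ℝ) ≤ c1 * (2 * d * M' N + 1 : ℝ) ^ (-α) := by positivity
    rw [ENNReal.ofReal_pow hp]
    refine pow_le_pow_left' (le_min ?_ ?_) _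
    · have h2 := hμ (β / (2 * d * M' N + 1)) (by positivity) (by
        rw [div_le_one (by linarith)]; linarith)
      refine le_trans (ENNReal.ofReal_le_ofReal ?_) h2
      rw [Real.div_rpow hβ0.le (by linarith), Real.rpow_neg (by linarith), ← mul_div_assoc,
        div_eq_mul_inv]
      refine mul_le_mul_of_nonneg_right ?_ (by positivity)
      rw [hc1]; exact min_le_left _ _
    · rw [← ENNReal.ofReal_toReal (measure_ne_top μ {x | β ≤ |x|}), ← hqb]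
      apply ENNReal.ofReal_le_ofReal
      have h3 : (2 * d * M' N + 1 : ℝ) ^ (-α) ≤ 1 :=
        Real.rpow_le_one_of_one_le_of_nonpos h1 (by linarith)
      have h4 : c1 ≤ qb := by rw [hc1]; exact min_le_right _ _
      nlinarith
  · refine (hF.and_eventually (asym (d := d) hc10 hα hM)).mono fun N hN => ⟨hN.2.1, ?_⟩
    obtain ⟨𝓖, h𝓖⟩ := hN.1
    exact ⟨𝓖, h𝓖.mono_c (Real.exp_le_exp.2 hN.2.2)⟩

end Pool.Agent.U47.EAT
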