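import Pool.Agent.U47.EAT.Det

/-!
# Domain walls and rigid sets
-/

set_option autoImplicit false

open MeasureTheory Filter Topology

namespace Pool.Agent.U47.EAT

open Pool.Agent.R239.EA

variable {d : ℕ}

lemma GA_neg {J : (Fin d → ℤ) × Fin d → ℝ} {σ : (Fin d → ℤ) → ℝ} (h : GA J σ) :
    GA J (-σ) := by
  intro n
  refine ⟨fun x => ?_, fun A hA hAB => ?_⟩
  · rcases (h n).1 x with h1 | h1
    · right; rw [Pi.neg_apply, h1]
    · left; rw [Pi.neg_apply, h1, neg_neg]
  · have h1 := (h n).2 A hA hAB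
    simp only [Pi.neg_apply, neg_mul_neg]
    exact h1

lemma dC_compl (S : Set (Fin d → ℤ)) : dC Sᶜ = dC S := by
  ext e
  unfold dC
  simp only [Set.mem_ofPred_eq, Set.mem_compl_iff]
  tauto

lemma neg_compl {σ τ : (Fin d → ℤ) → ℝ} (hσ : ∀ x, σ x = 1 ∨ σ x = -1)
    (hτ : ∀ x, τ x = 1 ∨ τ x = -1) : {x | σ x ≠ (-τ) x} = {x | σ x ≠ τ x}ᶜ := by
  ext x
  simp only [Set.mem_ofPred_eq, Set.mem_compl_iff, not_not, Pi.neg_apply]
  rcases hσ x with h | h <;> rcases hτ x with h' | h' <;> rw [h, h'] <;> norm_num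

/-- connectedness of hyperplanes -/
lemma conn {j : Fin d} {n : ℤ} {P : (Fin d → ℤ) → Prop}
    (h : ∀ x k, k ≠ j → x j = n → (P x ↔ P (x + u k))) :
    ∀ x y, x j = n → y j = n → (P x ↔ P y) := by
  classical
  have hst : ∀ (z : ℤ) (x : Fin d → ℤ) (k : Fin d), k ≠ j → x j = n → (x + z • u k) j = n := by
    intro z x k hk hx
    simp only [Pi.add_apply, Pi.smul_apply, u_ne hk.symm, smul_zero, add_zero]
    exact hx
  have hz : ∀ (z : ℤ) (x : Fin d → ℤ) (k : Fin d), k ≠ j → x j = n → (P x ↔ P (x + z • u k)) := by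
    intro z
    induction z using Int.induction_on with
    | zero => intro x k _ _; simp
    | succ z ih =>
      intro x k hk hx
      have h1 : x + ((z : ℤ) + 1) • u k = x + (z : ℤ) • u k + u k := by module
      rw [h1, ← h _ k hk (hst _ x k hk hx)]
      exact ih x k hk hx
    | pred z ih =>
      intro x k hk hx
      have h1 : x + (-(z : ℤ)) • u k = x + (-(z : ℤ) - 1) • u k + u k := by module
      rw [ih x k hk hx, h1, ← h _ k hk (hst _ x k hk hx)]
  intro x y hx hy
  have hs : ∀ s : Finset (Fin d), (P x ↔ P (fun l => if l ∈ s then y l else x l)) := by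
    intro s
    induction s using Finset.induction_on with
    | empty => simp
    | insert k s hk ih =>
      rw [ih]
      by_cases hkj : k = j
      · have h1 : (fun l => if l ∈ insert k s then y l else x l) =
            fun l => if l ∈ s then y l else x l := by
          funext l
          by_cases hl : l = k
          · rw [if_pos (by rw [hl]; exact Finset.mem_insert_self _ _), if_neg (by rw [hl]; exact hk),
              hl, hkj, hx, hy]
          · simp only [Finset.mem_insert, hl, false_or]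
        rw [h1]
      · have h1 : (fun l => if l ∈ insert k s then y l else x l) =
            (fun l => if l ∈ s then y l else x l) + (y k - x k) • u k := by
          funext l
          simp only [Pi.add_apply, Pi.smul_apply, smul_eq_mul]
          by_cases hl : l = k
          · rw [if_pos (by rw [hl]; exact Finset.mem_insert_self _ _), if_neg (by rw [hl]; exact hk),
              hl, u_same]
            ring
          · rw [u_ne hl]
            simp only [Finset.mem_insert, hl, false_or, mul_zero, add_zero]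
        rw [h1]
        refine hz _ _ k hkj ?_
        split_ifs
        · exact hy
        · exact hx
  have := hs Finset.univ
  simpa using this

/-- a rigid set which catches the wall in a hyperplane makes the hyperplane clean -/
theorem clean {a b : ℝ} (ha : 0 ≤ a) {i j : Fin d} (hij : i ≠ j) {C : Finset (Fin d → ℤ)} {M : ℕ}
    (hM : C.card ≤ M) (hab : 2 * d * M * a < b) {J : (Fin d → ℤ) × Fin d → ℝ}
    (hR : Rig a b i C J) {σ τ : (Fin d → ℤ) → ℝ} (hσ : GA J σ) (hτ : GA J τ) {n : ℤ}
    (hW : ∀ e ∈ dC {x | σ x ≠ τ x}, e.1 j = n → e.2 = i → e.1 ∈ C)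
    (hfin : {e | e ∈ dC {x | σ x ≠ τ x} ∧ e.1 j = n ∧ e.2 ≠ j}.Finite) :
    (∀ x, x j = n → σ x = τ x) ∨ (∀ x, x j = n → σ x ≠ τ x) := by
  classical
  have h1 : ∀ x : Fin d → ℤ, x j = n → (σ x ≠ τ x ↔ σ (x + u i) ≠ τ (x + u i)) := by
    intro x hx
    by_contra hc
    have he : ((x, i) : (Fin d → ℤ) × Fin d) ∈ dC {x | σ x ≠ τ x} := hc
    have hxC : x ∈ C := hW _ he hx rfl
    have h2 := sat ha hM hab hR hσ hxC
    have h3 := sat ha hM hab hR hτ hxC
    rcases (hσ 0).1 x with h4 | h4 <;> rcases (hτ 0).1 x with h5 | h5 <;>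
      rcases (hσ 0).1 (x + u i) with h6 | h6 <;> rcases (hτ 0).1 (x + u i) with h7 | h7 <;>
      rw [h4, h6] at h2 <;> rw [h5, h7] at h3 <;> rw [h4, h5, h6, h7] at hc <;>
      first
        | (exfalso; linarith)
        | (exfalso; apply hc; norm_num)
  have h2 : ∀ (t : ℕ) (x : Fin d → ℤ), x j = n →
      (σ x ≠ τ x ↔ σ (x + (t : ℤ) • u i) ≠ τ (x + (t : ℤ) • u i)) := by
    intro t
    induction t with
    | zero => intro x _; simp
    | succ t ih =>
      intro x hx
      have h3 : x + ((t + 1 : ℕ) : ℤ) • u i = x + (t : ℤ) • u i + u i := by push_cast; module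
      rw [h3, ih x hx]
      refine h1 _ ?_
      simp only [Pi.add_apply, Pi.smul_apply, u_ne hij.symm, smul_zero, add_zero]
      exact hx
  have h3 : ∀ (x : Fin d → ℤ) (k : Fin d), k ≠ j → x j = n →
      (σ x ≠ τ x ↔ σ (x + u k) ≠ τ (x + u k)) := by
    intro x k hk hx
    by_contra hc
    have hinf : (Set.range fun t : ℕ => ((x + (t : ℤ) • u i, k) : (Fin d → ℤ) × Fin d)).Infinite := by
      refine Set.infinite_range_of_injective fun t t' h => ?_
      simp only [Prod.mk.injEq, and_true, add_right_inj] at h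
      have h4 := congrFun h i
      simp only [Pi.smul_apply, u_same, smul_eq_mul, mul_one] at h4
      exact_mod_cast h4
    refine hinf (hfin.subset ?_)
    rintro e ⟨t, rfl⟩
    have hxj : (x + (t : ℤ) • u i) j = n := by
      simp only [Pi.add_apply, Pi.smul_apply, u_ne hij.symm, smul_zero, add_zero]
      exact hx
    refine ⟨?_, hxj, hk⟩
    intro hc'
    apply hc
    have h5 : (x + u k) j = n := by
      simp only [Pi.add_apply, u_ne hk.symm, add_zero]; exact hx
    rw [h2 t x hx, h2 t (x + u k) h5]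
    have h6 : x + u k + (t : ℤ) • u i = x + (t : ℤ) • u i + u k := by abel
    rw [h6]
    exact hc'
  have h4 := conn (P := fun x => σ x ≠ τ x) (n := n) (j := j) h3
  by_cases h5 : ∃ x, x j = n ∧ σ x ≠ τ x
  · obtain ⟨x, hx, hne⟩ := h5
    right
    intro y hy
    exact (h4 x y hx hy).1 hne
  · left
    push Not at h5
    exact h5

/-- a column without wall bonds -/
lemma column {D : Set (Fin d → ℤ)} {j : Fin d} {p : ℤ} : ∀ (t : ℕ) (x : Fin d → ℤ), x j = p →
    (∀ s : ℕ, s < t → ((x + (s : ℤ) • u j, j) : (Fin d → ℤ) × Fin d) ∉ dC D) →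
    (x ∈ D ↔ x + (t : ℤ) • u j ∈ D) := by
  intro t
  induction t with
  | zero => intro x _ _; simp
  | succ t ih =>
    intro x hx h
    rw [ih x hx fun s hs => h s (by omega)]
    have h1 := h t (by omega)
    unfold dC at h1
    simp only [Set.mem_ofPred_eq, not_not] at h1
    have h2 : x + ((t + 1 : ℕ) : ℤ) • u j = nx ((x + (t : ℤ) • u j, j) : (Fin d → ℤ) × Fin d) := by
      unfold nx; push_cast; module
    rw [h2]
    exact h1

/-- no differences between two hyperplanes, if there are none on the first one, the second one is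
clean and the wall is finite between them -/
theorem strip0 {J : (Fin d → ℤ) × Fin d → ℝ} {σ τ : (Fin d → ℤ) → ℝ} (hσ : GA J σ) (hτ : GA J τ)
    {i j : Fin d} (hij : i ≠ j) {p q : ℤ} (hpq : p ≤ q) (hp : ∀ x, x j = p → σ x = τ x)
    (hq : (∀ x, x j = q → σ x = τ x) ∨ (∀ x, x j = q → σ x ≠ τ x))
    (hfin : {e | e ∈ dC {x | σ x ≠ τ x} ∧ p ≤ e.1 j ∧ e.1 j < q}.Finite) :
    ∀ x, p < x j → x j < q → σ x = τ x := by
  classical
  obtain ⟨D, hD⟩ : ∃ D : Set (Fin d → ℤ), D = {x | σ x ≠ τ x} := ⟨_, rfl⟩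
  rw [← hD] at hfin
  have hmD : ∀ x, x ∈ D ↔ σ x ≠ τ x := by intro x; rw [hD]; rfl
  have hj : ∀ (x : Fin d → ℤ) (z : ℤ), (x + z • u j) j = x j + z := by
    intro x z
    simp only [Pi.add_apply, Pi.smul_apply, u_same, smul_eq_mul, mul_one]
  have hjne : ∀ (x : Fin d → ℤ) (z : ℤ) (k : Fin d), k ≠ j → (x + z • u j) k = x k := by
    intro x z k hk
    simp only [Pi.add_apply, Pi.smul_apply, u_ne hk, smul_zero, add_zero]
  -- the second hyperplane carries no differences
  have hq' : ∀ x, x j = q → σ x = τ x := by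
    rcases hq with hq | hq
    · exact hq
    exfalso
    have hinf : ¬ {e | e ∈ dC D ∧ p ≤ e.1 j ∧ e.1 j < q}.Finite := by
      intro hf
      obtain ⟨L, hL⟩ : ∃ L : ℤ, ∀ e ∈ {e | e ∈ dC D ∧ p ≤ e.1 j ∧ e.1 j < q}, e.1 i < L := by
        obtain ⟨B, hB⟩ := (hf.image fun e => e.1 i).bddAbove
        exact ⟨B + 1, fun e he => by have := hB ⟨e, he, rfl⟩; linarith⟩
      obtain ⟨x, hx⟩ : ∃ x : Fin d → ℤ, x = L • u i + p • u j := ⟨_, rfl⟩
      have hxj : x j = p := by
        rw [hx, hj]
        simp only [Pi.smul_apply, u_ne hij.symm, smul_zero, zero_add]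
      have hxi : x i = L := by
        rw [hx, hjne _ _ _ hij]
        simp only [Pi.smul_apply, u_same, smul_eq_mul, mul_one]
      have h1 := column (D := D) (q - p).toNat x hxj fun s hs he => by
        have h2 := hL _ ⟨he, by simp only [hj]; omega, by simp only [hj]; omega⟩
        simp only [hjne _ _ _ hij] at h2
        omega
      have h3 : x ∉ D := by rw [hmD, not_not]; exact hp x hxj
      have h4 : x + ((q - p).toNat : ℤ) • u j ∈ D := by
        rw [hmD]; exact hq _ (by rw [hj]; omega)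
      exact h3 (h1.2 h4)
    exact hinf hfin
  refine between hσ hτ hp hq' ?_
  -- finiteness
  refine Set.Finite.subset ((hfin.prod (Set.finite_Icc (-(q - p)) (q - p))).image
    fun ez : ((Fin d → ℤ) × Fin d) × ℤ => ez.1.1 + ez.2 • u j) ?_
  rintro x ⟨h1, h2, h3⟩
  by_contra hc
  obtain ⟨y, hy⟩ : ∃ y : Fin d → ℤ, y = x + (p - x j) • u j := ⟨_, rfl⟩
  have hyj : y j = p := by rw [hy, hj]; ring
  have h4 := column (D := D) (x j - p).toNat y hyj fun s hs he => by
    apply hc
    refine ⟨((y + (s : ℤ) • u j, j), x j - p - s), ⟨⟨he, ?_, ?_⟩, ?_, ?_⟩, ?_⟩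
    · simp only [hj]; omega
    · simp only [hj]; omega
    · simp only; omega
    · simp only; omega
    · simp only [hy]; module
  have h5 : y + ((x j - p).toNat : ℤ) • u j = x := by
    have h6 : ((x j - p).toNat : ℤ) = x j - p := by omega
    rw [h6, hy]; module
  rw [h5] at h4
  exact absurd (h4.2 ((hmD x).2 h3)) (by rw [hmD, not_not]; exact hp y hyj)

/-- the strip between two clean hyperplanes is clean, if the wall is finite in it -/
theorem strip {J : (Fin d → ℤ) × Fin d → ℝ} {σ τ : (Fin d → ℤ) → ℝ} (hσ : GA J σ) (hτ : GA J τ)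
    {i j : Fin d} (hij : i ≠ j) {p q : ℤ} (hpq : p ≤ q)
    (hp : (∀ x, x j = p → σ x = τ x) ∨ (∀ x, x j = p → σ x ≠ τ x))
    (hq : (∀ x, x j = q → σ x = τ x) ∨ (∀ x, x j = q → σ x ≠ τ x))
    (hfin : {e | e ∈ dC {x | σ x ≠ τ x} ∧ p ≤ e.1 j ∧ e.1 j < q}.Finite) :
    (∀ x, p < x j → x j < q → σ x = τ x) ∨ (∀ x, p < x j → x j < q → σ x = -τ x) := by
  rcases hp with hp | hp
  · exact Or.inl (strip0 hσ hτ hij hpq hp hq hfin)
  right
  have hset := neg_compl (hσ 0).1 (hτ 0).1
  have hiff : ∀ x, σ x = (-τ) x ↔ σ x ≠ τ x := by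
    intro x
    have := Set.ext_iff.1 hset x
    simp only [Set.mem_ofPred_eq, Set.mem_compl_iff, not_not] at this
    rw [ne_eq, ← this, not_not]
  refine strip0 hσ (GA_neg hτ) hij hpq (fun x hx => (hiff x).2 (hp x hx)) ?_ ?_
  · rcases hq with hq | hq
    · right
      intro x hx h
      exact (hiff x).1 h (hq x hx)
    · left
      exact fun x hx => (hiff x).2 (hq x hx)
  · rw [hset, dC_compl]
    exact hfin

end Pool.Agent.U47.EAT
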