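import Pool.Agent.U47.EAT.Prob
import Pool.Agent.U47.EAT.Wall

/-!
# No domain walls in thin sets
-/

set_option autoImplicit false

open MeasureTheory Filter Topology

namespace Pool.Agent.U47.EAT

open Pool.Agent.R239.EA

variable {d : ℕ}

/-- the slice, together with its left neighbours in direction `i` -/
noncomputable def slw (G : Set (Fin d → ℤ)) (i j : Fin d) (n : ℤ) : Finset (Fin d → ℤ) := by
  classical
  exact slc G j n ∪ (slc G j n).image fun x => x - u i

lemma slw_height {G : Set (Fin d → ℤ)} {i j : Fin d} (hij : i ≠ j) {n : ℤ} :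
    ∀ x ∈ slw G i j n, x j = n := by
  classical
  intro x hx
  unfold slw at hx
  rw [Finset.mem_union, Finset.mem_image] at hx
  rcases hx with h | ⟨y, hy, rfl⟩
  · exact slc_height x h
  · rw [Pi.sub_apply, u_ne hij.symm, sub_zero]
    exact slc_height y hy

lemma slw_card {G : Set (Fin d → ℤ)} {i j : Fin d} {n : ℤ} {M : ℕ}
    (h : {x | x ∈ G ∧ x j = n}.encard ≤ M) : (slw G i j n).card ≤ 2 * M := by
  classical
  unfold slw
  have h1 := slc_card h
  calc _ ≤ (slc G j n).card + ((slc G j n).image fun x => x - u i).card :=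
        Finset.card_union_le _ _
    _ ≤ (slc G j n).card + (slc G j n).card := Nat.add_le_add_left Finset.card_image_le _
    _ ≤ 2 * M := by omega

/-- the wall of a pair touches `S` only -/
def WallIn (σ τ : (Fin d → ℤ) → ℝ) (S : Set (Fin d → ℤ)) : Prop :=
  ∀ e ∈ dC {x | σ x ≠ τ x}, e.1 ∈ S ∨ nx e ∈ S

variable (μ : Measure ℝ) [IsProbabilityMeasure μ]

/-- **Walls in thin sets.** -/
theorem wallG {i j : Fin d} (hij : i ≠ j) (M M' : ℕ → ℕ) (hM' : ∀ N, 2 * M N ≤ M' N)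
    (a b k : ℕ → ℝ) (ha0 : ∀ N, 0 ≤ a N)
    (hab : ∀ N, 2 * d * M' N * a N < b N) (hk0 : ∀ N, 0 < k N)
    (hk : ∀ N, ENNReal.ofReal (k N) ≤
      (min (μ {x | |x| ≤ a N}) (μ {x | b N ≤ |x|})) ^ (2 * d * M' N))
    (𝓕 : Set (Set (Fin d → ℤ)))
    (hF : ∃ᶠ N : ℕ in atTop, 16 * Real.log N ≤ k N * N ∧
      ∃ 𝓖, Net j (M N) (Real.exp (k N * N / 8)) 𝓕 N 𝓖) :
    ∀ᵐ J ∂(Lw μ d), ∀ S ∈ 𝓕, ∀ σ τ : (Fin d → ℤ) → ℝ, GA J σ → GA J τ →
      WallIn σ τ S → σ = τ ∨ σ = -τ := by
  classical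
  have hq1 : ∀ N, min (μ {x | |x| ≤ a N}) (μ {x | b N ≤ |x|}) ≤ 1 :=
    fun N => (min_le_left _ _).trans prob_le_one
  have hk1 : ∀ N, k N ≤ 1 := by
    intro N
    have h1 : ENNReal.ofReal (k N) ≤ 1 := (hk N).trans (pow_le_one' (hq1 N) _)
    rwa [ENNReal.ofReal_le_one] at h1
  obtain ⟨P, hP⟩ : ∃ P : ℕ → Prop, P = fun N : ℕ => 16 * Real.log N ≤ k N * N ∧
    ∃ 𝓖, Net j (M N) (Real.exp (k N * N / 8)) 𝓕 N 𝓖 := ⟨_, rfl⟩
  have hch : ∃ 𝓖 : ℕ → Finset (Set (Fin d → ℤ)), ∀ N, P N →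
      Net j (M N) (Real.exp (k N * N / 8)) 𝓕 N (𝓖 N) := by
    refine ⟨fun N => if h : ∃ 𝓖, Net j (M N) (Real.exp (k N * N / 8)) 𝓕 N 𝓖 then h.choose
      else ∅, fun N hN => ?_⟩
    rw [hP] at hN
    simp only
    rw [dif_pos hN.2]
    exact hN.2.choose_spec
  obtain ⟨𝓖, h𝓖⟩ := hch
  -- the bad events
  obtain ⟨I, hI⟩ : ∃ I : ℕ → Finset ℕ, I = fun N => Finset.Ioc (N / 4) (N / 2) := ⟨_, rfl⟩
  obtain ⟨E, hE⟩ : ∃ E : ℤ → Set (Fin d → ℤ) → ℕ → Set ((Fin d → ℤ) × Fin d → ℝ),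
      E = fun s G N => {J | ∀ m ∈ I N, ¬ Rig (a N) (b N) i (slw G i j (s * (2 * m))) J} := ⟨_, rfl⟩
  obtain ⟨B, hB⟩ : ∃ B : ℕ → Set ((Fin d → ℤ) × Fin d → ℝ),
      B = fun N => {J | P N ∧ ∃ G ∈ 𝓖 N, J ∈ E 1 G N ∨ J ∈ E (-1) G N} := ⟨_, rfl⟩
  have hEp : ∀ N, P N → ∀ G ∈ 𝓖 N, ∀ s : ℤ, |s| = 1 →
      Lw μ d (E s G N) ≤ ENNReal.ofReal (Real.exp (-(k N * ((N / 4 : ℕ) : ℝ)))) := by
    intro N hN G hG s hs
    obtain ⟨-, h2, -⟩ := h𝓖 N hN
    have hcardI : N / 4 ≤ (I N).card := by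
      rw [hI]; simp only [Nat.card_Ioc]; omega
    have h3 : Lw μ d (E s G N) ≤ (1 - ENNReal.ofReal (k N)) ^ (I N).card := by
      rw [hE]
      refine none_prob μ (fun m => slw G i j (s * (2 * (m : ℤ)))) (I N) ?_ ?_
      · intro m hm m' hm' hne
        refine tch_disj (slw_height hij) (slw_height hij) ?_
        have h4 : s * (2 * (m : ℤ)) - s * (2 * (m' : ℤ)) = s * (2 * ((m : ℤ) - m')) := by ring
        rw [h4, abs_mul, hs, one_mul, abs_mul]
        have h5 : 1 ≤ |(m : ℤ) - m'| := by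
          apply Int.one_le_abs
          intro h6
          apply hne
          omega
        simp only [abs_two]
        omega
      · intro m hm
        refine (hk N).trans (Rig_prob μ (hq1 N) (min_le_left _ _) (min_le_right _ _)
          ((slw_card (h2 G hG _ ?_)).trans (hM' N)))
        rw [abs_mul, hs, one_mul]
        rw [hI, Finset.mem_Ioc] at hm
        rw [abs_of_nonneg (by positivity)]
        have := hm.2
        omega
    refine h3.trans ((one_sub_pow_le ENNReal.ofReal_ne_top _).trans (ENNReal.ofReal_le_ofReal ?_))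
    rw [ENNReal.toReal_ofReal (hk0 N).le]
    apply Real.exp_le_exp.2
    have h6 : ((N / 4 : ℕ) : ℝ) ≤ ((I N).card : ℝ) := by exact_mod_cast hcardI
    have h7 := mul_le_mul_of_nonneg_left h6 (hk0 N).le
    linarith
  have hBp : ∀ N, Lw μ d (B N) ≤ ENNReal.ofReal (2 * Real.exp 1 * (1 / (N : ℝ) ^ 2)) ∨ N = 0 := by
    intro N
    rcases Nat.eq_zero_or_pos N with h0N | h0N
    · exact Or.inr h0N
    left
    have hN0 : (0:ℝ) < N := by exact_mod_cast h0N
    by_cases hN : P N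
    · obtain ⟨h1, -, -⟩ := h𝓖 N hN
      have hlog : 16 * Real.log N ≤ k N * N := by rw [hP] at hN; exact hN.1
      have hsub : B N ⊆ ⋃ G ∈ 𝓖 N, (E 1 G N ∪ E (-1) G N) := by
        intro J hJ
        rw [hB] at hJ
        obtain ⟨-, G, hG, h⟩ := hJ
        simp only [Set.mem_iUnion]
        exact ⟨G, hG, h⟩
      calc Lw μ d (B N) ≤ Lw μ d (⋃ G ∈ 𝓖 N, (E 1 G N ∪ E (-1) G N)) := measure_mono hsub
        _ ≤ ∑ G ∈ 𝓖 N, Lw μ d (E 1 G N ∪ E (-1) G N) := measure_biUnion_finset_le _ _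
        _ ≤ ∑ G ∈ 𝓖 N, ENNReal.ofReal (2 * Real.exp (-(k N * ((N / 4 : ℕ) : ℝ)))) := by
            refine Finset.sum_le_sum fun G hG => ?_
            refine (measure_union_le _ _).trans ?_
            refine (add_le_add (hEp N hN G hG 1 (by simp)) (hEp N hN G hG (-1) (by simp))).trans ?_
            rw [← ENNReal.ofReal_add (Real.exp_pos _).le (Real.exp_pos _).le, two_mul]
        _ = ENNReal.ofReal ((𝓖 N).card * (2 * Real.exp (-(k N * ((N / 4 : ℕ) : ℝ))))) := by
            rw [Finset.sum_const, nsmul_eq_mul, ENNReal.ofReal_mul (Nat.cast_nonneg _),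
              ENNReal.ofReal_natCast]
        _ ≤ ENNReal.ofReal (2 * Real.exp 1 * (1 / (N : ℝ) ^ 2)) := by
            apply ENNReal.ofReal_le_ofReal
            have h4 : ((N / 4 : ℕ) : ℝ) ≥ N / 4 - 1 := by
              have h5 : N ≤ 4 * (N / 4) + 3 := by omega
              have h6 : (N : ℝ) ≤ 4 * ((N / 4 : ℕ) : ℝ) + 3 := by exact_mod_cast h5
              linarith
            have h7 : Real.exp (-(k N * ((N / 4 : ℕ) : ℝ))) ≤ Real.exp (1 - k N * N / 4) := by
              apply Real.exp_le_exp.2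
              have h8 := mul_le_mul_of_nonneg_left h4 (hk0 N).le
              have := hk1 N
              nlinarith
            have h9 : Real.exp (-(k N * N / 8)) ≤ 1 / (N : ℝ) ^ 2 := by
              have h10 : Real.exp (-(k N * N / 8)) ≤ Real.exp (-(2 * Real.log N)) := by
                apply Real.exp_le_exp.2; linarith
              refine h10.trans (le_of_eq ?_)
              rw [Real.exp_neg, one_div, show 2 * Real.log N = Real.log N * (2:ℕ) by
                push_cast; ring, mul_comm, Real.exp_nat_mul, Real.exp_log hN0]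
            calc ((𝓖 N).card : ℝ) * (2 * Real.exp (-(k N * ((N / 4 : ℕ) : ℝ))))
                ≤ Real.exp (k N * N / 8) * (2 * Real.exp (1 - k N * N / 4)) := by
                  gcongr
              _ = 2 * Real.exp 1 * Real.exp (-(k N * N / 8)) := by
                  rw [mul_left_comm, ← Real.exp_add, mul_assoc, ← Real.exp_add]
                  congr 2; ring
              _ ≤ 2 * Real.exp 1 * (1 / (N : ℝ) ^ 2) := by gcongr
    · have h0 : B N = ∅ := by
        rw [hB]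
        ext J
        simp only [Set.mem_ofPred_eq, Set.mem_empty_iff_false, iff_false]
        exact fun h => hN h.1
      rw [h0, measure_empty]
      exact zero_le
  have hsum : ∑' N, Lw μ d (B (N + 1)) ≠ ⊤ := by
    have hs : Summable fun N : ℕ => 2 * Real.exp 1 * (1 / ((N + 1 : ℕ) : ℝ) ^ 2) := by
      refine Summable.mul_left _ ?_
      exact (summable_nat_add_iff 1).2 (Real.summable_one_div_nat_pow.2 (by norm_num))
    refine ne_top_of_le_ne_top hs.tsum_ofReal_ne_top (ENNReal.tsum_le_tsum fun N => ?_)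
    rcases hBp (N + 1) with h | h
    · exact h
    · omega
  filter_upwards [ae_eventually_notMem hsum] with J hJ'
  have hJ : ∀ᶠ N in atTop, J ∉ B N := by
    obtain ⟨n0, hn0⟩ := eventually_atTop.1 hJ'
    refine eventually_atTop.2 ⟨n0 + 1, fun N hN => ?_⟩
    have := hn0 (N - 1) (by omega)
    rwa [Nat.sub_add_cancel (by omega)] at this
  intro S hS σ τ hσ hτ hD
  -- the claim in a strip
  have hstrip : ∀ x : Fin d → ℤ, (σ x = τ x ∧ σ 0 = τ 0) ∨ (σ x = -τ x ∧ σ 0 = -τ 0) := by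
    intro x
    obtain ⟨N, hPN, hJN, hNx⟩ : ∃ N, P N ∧ J ∉ B N ∧ 4 * (x j).natAbs + 8 ≤ N := by
      have h1 : ∃ᶠ N : ℕ in atTop, P N := by rw [hP]; exact hF
      obtain ⟨N, h2, h3, h4⟩ := (h1.and_eventually (hJ.and (eventually_ge_atTop
        (4 * (x j).natAbs + 8)))).exists
      exact ⟨N, h2, h3, h4⟩
    obtain ⟨-, hfin, hcov⟩ := h𝓖 N hPN
    obtain ⟨G, hG, hSG⟩ := hcov S hS
    have hall : {y | y ∈ G ∧ |y j| ≤ N}.Finite := by
      refine Set.Finite.subset (s := ⋃ n ∈ Finset.Icc (-(N : ℤ)) N, {y | y ∈ G ∧ y j = n}) ?_ ?_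
      · refine Set.Finite.biUnion (Finset.finite_toSet _) fun n hn => ?_
        rw [Finset.mem_coe, Finset.mem_Icc] at hn
        exact slc_fin (hfin G hG n (abs_le.2 hn))
      · rintro y ⟨h1, h2⟩
        simp only [Set.mem_iUnion, Finset.mem_Icc]
        exact ⟨y j, abs_le.1 h2, h1, rfl⟩
    have hstep : ∀ e : (Fin d → ℤ) × Fin d, nx e j = e.1 j ∨ nx e j = e.1 j + 1 := by
      intro e
      unfold nx
      by_cases h : j = e.2
      · right; rw [Pi.add_apply, h, u_same]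
      · left; rw [Pi.add_apply, u_ne h, add_zero]
    have hwf : {e | e ∈ dC {x | σ x ≠ τ x} ∧ -(N : ℤ) ≤ e.1 j ∧ e.1 j ≤ N - 1}.Finite := by
      refine ((hall.prod (Set.finite_univ (α := Fin d))).union
        ((hall.prod (Set.finite_univ (α := Fin d))).image
          fun e : (Fin d → ℤ) × Fin d => (e.1 - u e.2, e.2))).subset ?_
      rintro e ⟨h1, h2, h3⟩
      have h4 := hstep e
      rcases hD e h1 with h5 | h5
      · left
        have h6 : |e.1 j| ≤ N := by rw [abs_le]; omega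
        exact ⟨⟨hSG _ h5 h6, h6⟩, Set.mem_univ _⟩
      · right
        have h6 : |nx e j| ≤ N := by rw [abs_le]; omega
        refine ⟨(nx e, e.2), ⟨⟨hSG _ h5 h6, h6⟩, Set.mem_univ _⟩, ?_⟩
        unfold nx
        simp
    have hclean : ∀ s : ℤ, |s| = 1 → J ∉ E s G N →
        ∃ m : ℕ, m ∈ I N ∧ ((∀ y, y j = s * (2 * m) → σ y = τ y) ∨
          ∀ y, y j = s * (2 * m) → σ y ≠ τ y) := by
      intro s hs hJE
      rw [hE] at hJE
      simp only [Set.mem_ofPred_eq] at hJE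
      push Not at hJE
      obtain ⟨m, hm, hR⟩ := hJE
      have hm' := hm
      rw [hI, Finset.mem_Ioc] at hm'
      have hmN : |s * (2 * (m : ℤ))| ≤ N := by
        rw [abs_mul, hs, one_mul, abs_of_nonneg (by positivity)]
        have := hm'.2
        omega
      have hs' : s = 1 ∨ s = -1 := by
        rcases abs_choice s with h | h <;> omega
      refine ⟨m, hm, ?_⟩
      have hfin2 : {e | e ∈ dC {x | σ x ≠ τ x} ∧ e.1 j = s * (2 * m) ∧ e.2 ≠ j}.Finite := by
        refine ((hall.prod (Set.finite_univ (α := Fin d))).union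
          ((hall.prod (Set.finite_univ (α := Fin d))).image
            fun e : (Fin d → ℤ) × Fin d => (e.1 - u e.2, e.2))).subset ?_
        rintro e ⟨h1, h2, h3⟩
        have h8 : nx e j = e.1 j := by
          unfold nx
          rw [Pi.add_apply, u_ne (Ne.symm h3), add_zero]
        rcases hD e h1 with h5 | h5
        · left
          have h6 : |e.1 j| ≤ N := by rw [h2]; exact hmN
          exact ⟨⟨hSG _ h5 h6, h6⟩, Set.mem_univ _⟩
        · right
          have h6 : |nx e j| ≤ N := by rw [h8, h2]; exact hmN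
          refine ⟨(nx e, e.2), ⟨⟨hSG _ h5 h6, h6⟩, Set.mem_univ _⟩, ?_⟩
          unfold nx
          simp
      refine clean (ha0 N) hij ((slw_card (hfin G hG _ hmN)).trans (hM' N)) (hab N) hR hσ hτ
        ?_ hfin2
      intro e he hej hei
      have h8 : nx e j = e.1 j := by
        unfold nx
        rw [hei, Pi.add_apply, u_ne hij.symm, add_zero]
      unfold slw
      rw [Finset.mem_union, Finset.mem_image]
      rcases hD e he with h5 | h5
      · left
        rw [mem_slc (hfin G hG _ hmN)]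
        exact ⟨hSG _ h5 (by rw [hej]; exact hmN), hej⟩
      · right
        refine ⟨nx e, ?_, ?_⟩
        · rw [mem_slc (hfin G hG _ hmN)]
          exact ⟨hSG _ h5 (by rw [h8, hej]; exact hmN), by rw [h8, hej]⟩
        · unfold nx
          rw [hei]
          simp
    have hnot : J ∉ E 1 G N ∧ J ∉ E (-1) G N := by
      constructor
      · intro h
        apply hJN
        rw [hB]
        exact ⟨hPN, G, hG, Or.inl h⟩
      · intro h
        apply hJN
        rw [hB]
        exact ⟨hPN, G, hG, Or.inr h⟩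
    obtain ⟨m, hm, hc⟩ := hclean 1 (by simp) hnot.1
    obtain ⟨m', hm', hc'⟩ := hclean (-1) (by simp) hnot.2
    rw [hI, Finset.mem_Ioc] at hm hm'
    have hs := strip hσ hτ hij (p := -1 * (2 * m')) (q := 1 * (2 * m)) (by omega) hc' hc
      (hwf.subset ?_)
    · rcases hs with h | h
      · exact Or.inl ⟨h x (by omega) (by omega), h 0 (by simp only [Pi.zero_apply]; omega)
          (by simp only [Pi.zero_apply]; omega)⟩
      · exact Or.inr ⟨h x (by omega) (by omega), h 0 (by simp only [Pi.zero_apply]; omega)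
          (by simp only [Pi.zero_apply]; omega)⟩
    · rintro e ⟨h1, h2, h3⟩
      exact ⟨h1, by omega, by omega⟩
  by_cases h0 : σ 0 = τ 0
  · left
    funext x
    rcases hstrip x with h | h
    · exact h.1
    · exfalso
      have h1 : τ 0 = -τ 0 := h0.symm.trans h.2
      rcases (hτ 0).1 0 with h2 | h2 <;> rw [h2] at h1 <;> norm_num at h1
  · right
    funext x
    rcases hstrip x with h | h
    · exact absurd h.2 h0
    · exact h.1

/-- **Walls in thin sets, fixed strengths.** -/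
theorem wall {a b : ℝ} (ha0 : 0 ≤ a) {i j : Fin d} (hij : i ≠ j) {M : ℕ}
    (hab : 2 * d * (2 * M : ℕ) * a < b) (ha : μ {x | |x| ≤ a} ≠ 0) (hb : μ {x | b ≤ |x|} ≠ 0) :
    ∃ ε : ℝ, 0 < ε ∧ ∀ 𝓕 : Set (Set (Fin d → ℤ)),
      (∃ᶠ N : ℕ in atTop, ∃ 𝓖, Net j M (Real.exp (ε * N)) 𝓕 N 𝓖) →
      ∀ᵐ J ∂(Lw μ d), ∀ S ∈ 𝓕, ∀ σ τ : (Fin d → ℤ) → ℝ, GA J σ → GA J τ →
        WallIn σ τ S → σ = τ ∨ σ = -τ := by
  obtain ⟨q, hq⟩ : ∃ q : ENNReal, q = min (μ {x | |x| ≤ a}) (μ {x | b ≤ |x|}) := ⟨_, rfl⟩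
  have hq1 : q ≤ 1 := by rw [hq]; exact (min_le_left _ _).trans prob_le_one
  have hq0 : q ≠ 0 := by
    rw [hq]
    intro h
    rcases min_eq_bot.1 h with h | h
    · exact ha h
    · exact hb h
  obtain ⟨κ, hκ⟩ : ∃ κ : ENNReal, κ = q ^ (2 * d * (2 * M)) := ⟨_, rfl⟩
  have hκ0 : κ ≠ 0 := by rw [hκ]; exact pow_ne_zero _ hq0
  have hκt : κ ≠ ⊤ := by
    rw [hκ]; exact (lt_of_le_of_lt (pow_le_one' hq1 _) ENNReal.one_lt_top).ne
  obtain ⟨k, hk⟩ : ∃ k : ℝ, k = κ.toReal := ⟨_, rfl⟩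
  have hk0 : 0 < k := by rw [hk]; exact ENNReal.toReal_pos hκ0 hκt
  refine ⟨k / 8, by positivity, fun 𝓕 hF => ?_⟩
  refine wallG μ hij (fun _ => M) (fun _ => 2 * M) (fun _ => le_rfl) (fun _ => a) (fun _ => b) (fun _ => k) (fun _ => ha0)
    (fun _ => hab) (fun _ => hk0) (fun _ => ?_) 𝓕 ?_
  · rw [hk, ENNReal.ofReal_toReal hκt, hκ, hq]
  · have h1 : ∀ᶠ N : ℕ in atTop, 16 * Real.log N ≤ k * N := by
      have h2 := (Real.isLittleO_log_id_atTop.bound (show (0:ℝ) < k / 16 by positivity))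
      have h3 := tendsto_natCast_atTop_atTop (R := ℝ) |>.eventually h2
      filter_upwards [h3, eventually_ge_atTop 1] with N h4 h5
      have h6 : (0:ℝ) ≤ Real.log N := Real.log_natCast_nonneg N
      simp only [id, Real.norm_eq_abs] at h4
      rw [abs_of_nonneg h6, abs_of_nonneg (Nat.cast_nonneg N)] at h4
      linarith
    refine (hF.and_eventually h1).mono fun N hN => ⟨hN.2, ?_⟩
    obtain ⟨𝓖, h𝓖⟩ := hN.1
    refine ⟨𝓖, ?_⟩
    rwa [show k * N / 8 = k / 8 * N by ring]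

end Pool.Agent.U47.EAT
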